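import Pool.Agent.H433.GT.Shift

/-!
Identities between the sixteen products and the ten quadratic forms.
-/

set_option autoImplicit false

namespace Pool.Agent.H433.GT

variable {R : Type*} [CommRing R]

theorem id0_s8 (p q r l : R) {a : Fin 5 → R} (ha : a = ![p, q, r, l, 0])
    (x : Fin 4 → R) : 4 * (W a 8 * L a 8 x ^ 2) =
    -(W a 0 * Q a 0 x) - W a 1 * Q a 1 x - W a 2 * Q a 2 x - W a 3 * Q a 3 x
      + W a 4 * Q a 4 x + W a 5 * Q a 5 x + W a 6 * Q a 6 x + W a 7 * Q a 7 x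
      + W a 8 * Q a 8 x + W a 9 * Q a 9 x := by
  subst ha
  simp only [W, L, Q, lf, qf, pr, tr, Fin.isValue, Matrix.cons_val_zero, Matrix.cons_val_one,
    Matrix.cons_val, mul_zero, zero_mul, add_zero, zero_add, sub_zero, zero_sub]
  ring

theorem id_s8 (a : Fin 5 → R) (x : Fin 4 → R) : 4 * (W a 8 * L a 8 x ^ 2) =
    -(W a 0 * Q a 0 x) - W a 1 * Q a 1 x - W a 2 * Q a 2 x - W a 3 * Q a 3 x
      + W a 4 * Q a 4 x + W a 5 * Q a 5 x + W a 6 * Q a 6 x + W a 7 * Q a 7 x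
      + W a 8 * Q a 8 x + W a 9 * Q a 9 x := by
  have h := id0_s8 _ _ _ _ (shift_eq a) (tau (s1 a) (s2 a) (a 4) x)
  simpa only [W_shift, Q_shift, L_shift] using h

theorem id0_s9 (p q r l : R) {a : Fin 5 → R} (ha : a = ![p, q, r, l, 0])
    (x : Fin 4 → R) : 4 * (W a 9 * L a 9 x ^ 2) =
    W a 0 * Q a 0 x - W a 1 * Q a 1 x - W a 2 * Q a 2 x + W a 3 * Q a 3 x
      + W a 4 * Q a 4 x + W a 5 * Q a 5 x - W a 6 * Q a 6 x - W a 7 * Q a 7 x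
      + W a 8 * Q a 8 x + W a 9 * Q a 9 x := by
  subst ha
  simp only [W, L, Q, lf, qf, pr, tr, Fin.isValue, Matrix.cons_val_zero, Matrix.cons_val_one,
    Matrix.cons_val, mul_zero, zero_mul, add_zero, zero_add, sub_zero, zero_sub]
  ring

theorem id_s9 (a : Fin 5 → R) (x : Fin 4 → R) : 4 * (W a 9 * L a 9 x ^ 2) =
    W a 0 * Q a 0 x - W a 1 * Q a 1 x - W a 2 * Q a 2 x + W a 3 * Q a 3 x
      + W a 4 * Q a 4 x + W a 5 * Q a 5 x - W a 6 * Q a 6 x - W a 7 * Q a 7 x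
      + W a 8 * Q a 8 x + W a 9 * Q a 9 x := by
  have h := id0_s9 _ _ _ _ (shift_eq a) (tau (s1 a) (s2 a) (a 4) x)
  simpa only [W_shift, Q_shift, L_shift] using h

theorem id0_i0 (p q r l : R) {a : Fin 5 → R} (ha : a = ![p, q, r, l, 0])
    (x : Fin 4 → R) : 4 * (V a 0 * u a 0 x ^ 2) =
    W a 0 * Q a 0 x - W a 1 * Q a 1 x + W a 2 * Q a 2 x - W a 3 * Q a 3 x
      - W a 4 * Q a 4 x + W a 5 * Q a 5 x - W a 6 * Q a 6 x - W a 7 * Q a 7 x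
      + W a 8 * Q a 8 x - W a 9 * Q a 9 x := by
  subst ha
  simp only [W, Q, V, u, qf, pr, tr, Fin.isValue, Matrix.cons_val_zero, Matrix.cons_val_one,
    Matrix.cons_val, mul_zero, zero_mul, add_zero, zero_add, sub_zero, zero_sub]
  ring

theorem id_i0 (a : Fin 5 → R) (x : Fin 4 → R) : 4 * (V a 0 * u a 0 x ^ 2) =
    W a 0 * Q a 0 x - W a 1 * Q a 1 x + W a 2 * Q a 2 x - W a 3 * Q a 3 x
      - W a 4 * Q a 4 x + W a 5 * Q a 5 x - W a 6 * Q a 6 x - W a 7 * Q a 7 x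
      + W a 8 * Q a 8 x - W a 9 * Q a 9 x := by
  have h := id0_i0 _ _ _ _ (shift_eq a) (tau (s1 a) (s2 a) (a 4) x)
  simpa only [W_shift, Q_shift, V_shift, u_shift] using h

theorem id0_i1 (p q r l : R) {a : Fin 5 → R} (ha : a = ![p, q, r, l, 0])
    (x : Fin 4 → R) : 4 * (V a 1 * u a 1 x ^ 2) =
    -(W a 0 * Q a 0 x) - W a 1 * Q a 1 x + W a 2 * Q a 2 x - W a 3 * Q a 3 x
      - W a 4 * Q a 4 x + W a 5 * Q a 5 x - W a 6 * Q a 6 x + W a 7 * Q a 7 x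
      - W a 8 * Q a 8 x + W a 9 * Q a 9 x := by
  subst ha
  simp only [W, Q, V, u, qf, pr, tr, Fin.isValue, Matrix.cons_val_zero, Matrix.cons_val_one,
    Matrix.cons_val, mul_zero, zero_mul, add_zero, zero_add, sub_zero, zero_sub]
  ring

theorem id_i1 (a : Fin 5 → R) (x : Fin 4 → R) : 4 * (V a 1 * u a 1 x ^ 2) =
    -(W a 0 * Q a 0 x) - W a 1 * Q a 1 x + W a 2 * Q a 2 x - W a 3 * Q a 3 x
      - W a 4 * Q a 4 x + W a 5 * Q a 5 x - W a 6 * Q a 6 x + W a 7 * Q a 7 x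
      - W a 8 * Q a 8 x + W a 9 * Q a 9 x := by
  have h := id0_i1 _ _ _ _ (shift_eq a) (tau (s1 a) (s2 a) (a 4) x)
  simpa only [W_shift, Q_shift, V_shift, u_shift] using h

theorem id0_i2 (p q r l : R) {a : Fin 5 → R} (ha : a = ![p, q, r, l, 0])
    (x : Fin 4 → R) : 4 * (V a 2 * u a 2 x ^ 2) =
    -(W a 0 * Q a 0 x) - W a 1 * Q a 1 x - W a 2 * Q a 2 x + W a 3 * Q a 3 x
      + W a 4 * Q a 4 x + W a 5 * Q a 5 x - W a 6 * Q a 6 x + W a 7 * Q a 7 x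
      - W a 8 * Q a 8 x - W a 9 * Q a 9 x := by
  subst ha
  simp only [W, Q, V, u, qf, pr, tr, Fin.isValue, Matrix.cons_val_zero, Matrix.cons_val_one,
    Matrix.cons_val, mul_zero, zero_mul, add_zero, zero_add, sub_zero, zero_sub]
  ring

theorem id_i2 (a : Fin 5 → R) (x : Fin 4 → R) : 4 * (V a 2 * u a 2 x ^ 2) =
    -(W a 0 * Q a 0 x) - W a 1 * Q a 1 x - W a 2 * Q a 2 x + W a 3 * Q a 3 x
      + W a 4 * Q a 4 x + W a 5 * Q a 5 x - W a 6 * Q a 6 x + W a 7 * Q a 7 x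
      - W a 8 * Q a 8 x - W a 9 * Q a 9 x := by
  have h := id0_i2 _ _ _ _ (shift_eq a) (tau (s1 a) (s2 a) (a 4) x)
  simpa only [W_shift, Q_shift, V_shift, u_shift] using h

theorem id0_i3 (p q r l : R) {a : Fin 5 → R} (ha : a = ![p, q, r, l, 0])
    (x : Fin 4 → R) : 4 * (V a 3 * u a 3 x ^ 2) =
    W a 0 * Q a 0 x - W a 1 * Q a 1 x - W a 2 * Q a 2 x - W a 3 * Q a 3 x
      + W a 4 * Q a 4 x + W a 5 * Q a 5 x + W a 6 * Q a 6 x - W a 7 * Q a 7 x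
      - W a 8 * Q a 8 x - W a 9 * Q a 9 x := by
  subst ha
  simp only [W, Q, V, u, qf, pr, tr, Fin.isValue, Matrix.cons_val_zero, Matrix.cons_val_one,
    Matrix.cons_val, mul_zero, zero_mul, add_zero, zero_add, sub_zero, zero_sub]
  ring

theorem id_i3 (a : Fin 5 → R) (x : Fin 4 → R) : 4 * (V a 3 * u a 3 x ^ 2) =
    W a 0 * Q a 0 x - W a 1 * Q a 1 x - W a 2 * Q a 2 x - W a 3 * Q a 3 x
      + W a 4 * Q a 4 x + W a 5 * Q a 5 x + W a 6 * Q a 6 x - W a 7 * Q a 7 x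
      - W a 8 * Q a 8 x - W a 9 * Q a 9 x := by
  have h := id0_i3 _ _ _ _ (shift_eq a) (tau (s1 a) (s2 a) (a 4) x)
  simpa only [W_shift, Q_shift, V_shift, u_shift] using h

theorem id0_i4 (p q r l : R) {a : Fin 5 → R} (ha : a = ![p, q, r, l, 0])
    (x : Fin 4 → R) : 4 * (V a 4 * u a 4 x ^ 2) =
    -(W a 0 * Q a 0 x) + W a 1 * Q a 1 x - W a 2 * Q a 2 x - W a 3 * Q a 3 x
      - W a 4 * Q a 4 x + W a 5 * Q a 5 x + W a 6 * Q a 6 x - W a 7 * Q a 7 x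
      - W a 8 * Q a 8 x + W a 9 * Q a 9 x := by
  subst ha
  simp only [W, Q, V, u, qf, pr, tr, Fin.isValue, Matrix.cons_val_zero, Matrix.cons_val_one,
    Matrix.cons_val, mul_zero, zero_mul, add_zero, zero_add, sub_zero, zero_sub]
  ring

theorem id_i4 (a : Fin 5 → R) (x : Fin 4 → R) : 4 * (V a 4 * u a 4 x ^ 2) =
    -(W a 0 * Q a 0 x) + W a 1 * Q a 1 x - W a 2 * Q a 2 x - W a 3 * Q a 3 x
      - W a 4 * Q a 4 x + W a 5 * Q a 5 x + W a 6 * Q a 6 x - W a 7 * Q a 7 x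
      - W a 8 * Q a 8 x + W a 9 * Q a 9 x := by
  have h := id0_i4 _ _ _ _ (shift_eq a) (tau (s1 a) (s2 a) (a 4) x)
  simpa only [W_shift, Q_shift, V_shift, u_shift] using h

theorem id0_i5 (p q r l : R) {a : Fin 5 → R} (ha : a = ![p, q, r, l, 0])
    (x : Fin 4 → R) : 4 * (V a 5 * u a 5 x ^ 2) =
    -(W a 0 * Q a 0 x) + W a 1 * Q a 1 x - W a 2 * Q a 2 x + W a 3 * Q a 3 x
      - W a 4 * Q a 4 x + W a 5 * Q a 5 x - W a 6 * Q a 6 x - W a 7 * Q a 7 x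
      + W a 8 * Q a 8 x - W a 9 * Q a 9 x := by
  subst ha
  simp only [W, Q, V, u, qf, pr, tr, Fin.isValue, Matrix.cons_val_zero, Matrix.cons_val_one,
    Matrix.cons_val, mul_zero, zero_mul, add_zero, zero_add, sub_zero, zero_sub]
  ring

theorem id_i5 (a : Fin 5 → R) (x : Fin 4 → R) : 4 * (V a 5 * u a 5 x ^ 2) =
    -(W a 0 * Q a 0 x) + W a 1 * Q a 1 x - W a 2 * Q a 2 x + W a 3 * Q a 3 x
      - W a 4 * Q a 4 x + W a 5 * Q a 5 x - W a 6 * Q a 6 x - W a 7 * Q a 7 x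
      + W a 8 * Q a 8 x - W a 9 * Q a 9 x := by
  have h := id0_i5 _ _ _ _ (shift_eq a) (tau (s1 a) (s2 a) (a 4) x)
  simpa only [W_shift, Q_shift, V_shift, u_shift] using h

end Pool.Agent.H433.GT
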