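import Pool.Agent.H433.GT.Id1
import Pool.Agent.H433.GT.Id2
import Mathlib.NumberTheory.Height.MvPolynomial
import Mathlib.LinearAlgebra.Basis.VectorSpace

/-!
Linear relations between the sixteen products and the ten quadratic forms, and the coordinates in
terms of the ten linear forms.
-/

set_option autoImplicit false
set_option linter.unusedSimpArgs false

open Finset

namespace Pool.Agent.H433.GT

section ring

variable {R : Type*} [CommRing R]

theorem sum10 (f : Fin 10 → R) : ∑ s, f s = f 0 + f 1 + f 2 + f 3 + f 4 + f 5 + f 6 + f 7 + f 8 +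
    f 9 := by
  rw [Fin.sum_univ_castSucc, Fin.sum_univ_castSucc, Fin.sum_univ_eight]
  rfl

/-- the matrix of signs -/
def E (j : Fin 10 ⊕ Fin 6) (s : Fin 10) : ℤ := Sum.elim E1 E2 j s

/-- the sixteen products in terms of the quadratic forms -/
theorem al_eq (a : Fin 5 → R) (x : Fin 4 → R) (j : Fin 10 ⊕ Fin 6) :
    4 * al a x j = ∑ s, (E j s : R) * (W a s * Q a s x) := by
  rw [sum10]
  rcases j with j | j
  · fin_cases j <;>
      simp only [al, E, E1, Sum.elim_inl, Fin.zero_eta, Fin.mk_one, Fin.reduceFinMk,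
        Fin.isValue, Matrix.cons_val_zero, Matrix.cons_val_one, Matrix.cons_val, Int.cast_one,
        Int.cast_neg]
    · linear_combination id_s0 a x
    · linear_combination id_s1 a x
    · linear_combination id_s2 a x
    · linear_combination id_s3 a x
    · linear_combination id_s4 a x
    · linear_combination id_s5 a x
    · linear_combination id_s6 a x
    · linear_combination id_s7 a x
    · linear_combination id_s8 a x
    · linear_combination id_s9 a x
  · fin_cases j <;>
      simp only [al, E, E2, Sum.elim_inr, Fin.zero_eta, Fin.mk_one, Fin.reduceFinMk,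
        Fin.isValue, Matrix.cons_val_zero, Matrix.cons_val_one, Matrix.cons_val, Int.cast_one,
        Int.cast_neg]
    · linear_combination id_i0 a x
    · linear_combination id_i1 a x
    · linear_combination id_i2 a x
    · linear_combination id_i3 a x
    · linear_combination id_i4 a x
    · linear_combination id_i5 a x

theorem E_orth (s r : Fin 10) : ∑ j, E j s * E j r = if s = r then 16 else 0 := by
  revert s r
  decide

/-- the quadratic forms in terms of the sixteen products -/
theorem Q_eq (a : Fin 5 → R) (x : Fin 4 → R) (s : Fin 10) :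
    4 * ∑ j, (E j s : R) * al a x j = 16 * (W a s * Q a s x) := by
  rw [mul_sum]
  have h1 : ∀ j, 4 * ((E j s : R) * al a x j) = ∑ r, ((E j s * E j r : ℤ) : R) *
      (W a r * Q a r x) := by
    intro j
    rw [show 4 * ((E j s : R) * al a x j) = (E j s : R) * (4 * al a x j) by ring, al_eq, mul_sum]
    refine sum_congr rfl fun r _ => ?_
    push_cast
    ring
  simp only [h1]
  rw [sum_comm]
  simp only [← sum_mul, ← Int.cast_sum, E_orth]
  rw [sum_eq_single s]
  · simp
  · intro r _ hr
    rw [if_neg (Ne.symm hr)]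
    simp
  · simp

/-- the coordinates in terms of the linear forms -/
theorem mem_of_L {a : Fin 5 → R} {y : Fin 4 → R} {I : Ideal R} (h : ∀ s, L a s y ∈ I)
    (b : Fin 4) : 2 * W a 0 * y b ∈ I := by
  have h0 : 2 * W a 0 * y 0 = (a 2 - a 4) * ((L a 1 y - L a 4 y) - (L a 2 y - L a 5 y)) -
      (a 2 - a 3) * ((L a 1 y - L a 4 y) - (L a 3 y - L a 6 y)) := by
    simp only [W, L, lf, pr, tr, Fin.isValue, Matrix.cons_val_zero, Matrix.cons_val_one,
      Matrix.cons_val]
    ring
  have h1 : 2 * W a 0 * y 1 = 2 * (a 3 - a 4) * (a 2 - a 4) *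
      ((L a 1 y - L a 4 y) - (L a 2 y - L a 5 y)) + 2 * a 4 * (2 * W a 0 * y 0) := by
    simp only [W, L, lf, pr, tr, Fin.isValue, Matrix.cons_val_zero, Matrix.cons_val_one,
      Matrix.cons_val]
    ring
  have h2 : 2 * W a 0 * y 2 = - (2 * ((a 2 - a 3) * (a 2 - a 4) * (a 3 - a 4)) *
      (L a 1 y - L a 4 y)) + a 2 * (2 * W a 0 * y 1) -
      ((a 3 + a 4) * a 2 - a 3 * a 4) * (2 * W a 0 * y 0) := by
    simp only [W, L, lf, pr, tr, Fin.isValue, Matrix.cons_val_zero, Matrix.cons_val_one,
      Matrix.cons_val]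
    ring
  have h3 : 2 * W a 0 * y 3 = 2 * W a 0 * L a 0 y + (a 0 + a 1) * (2 * W a 0 * y 2) -
      a 0 * a 1 * (2 * W a 0 * y 1) + ((a 2 + a 3 + a 4) * (a 0 * a 1) + a 2 * a 3 * a 4) *
      (2 * W a 0 * y 0) := by
    simp only [W, L, lf, pr, tr, Fin.isValue, Matrix.cons_val_zero, Matrix.cons_val_one,
      Matrix.cons_val]
    ring
  have m0 : 2 * W a 0 * y 0 ∈ I := by
    rw [h0]
    exact I.sub_mem (I.mul_mem_left _ (I.sub_mem (I.sub_mem (h 1) (h 4)) (I.sub_mem (h 2) (h 5))))
      (I.mul_mem_left _ (I.sub_mem (I.sub_mem (h 1) (h 4)) (I.sub_mem (h 3) (h 6))))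
  have m1 : 2 * W a 0 * y 1 ∈ I := by
    rw [h1]
    exact I.add_mem (I.mul_mem_left _ (I.sub_mem (I.sub_mem (h 1) (h 4)) (I.sub_mem (h 2) (h 5))))
      (I.mul_mem_left _ m0)
  have m2 : 2 * W a 0 * y 2 ∈ I := by
    rw [h2]
    exact I.sub_mem (I.add_mem (I.neg_mem (I.mul_mem_left _ (I.sub_mem (h 1) (h 4))))
      (I.mul_mem_left _ m1)) (I.mul_mem_left _ m0)
  have m3 : 2 * W a 0 * y 3 ∈ I := by
    rw [h3]
    exact I.add_mem (I.sub_mem (I.add_mem (I.mul_mem_left _ (h 0)) (I.mul_mem_left _ m2))
      (I.mul_mem_left _ m1)) (I.mul_mem_left _ m0)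
  fin_cases b
  · exact m0
  · exact m1
  · exact m2
  · exact m3

end ring

section field

variable {K : Type} [Field K] [CharZero K]

omit [CharZero K] in
theorem W_ne {a : Fin 5 → K} (ha : Function.Injective a) (s : Fin 10) : W a s ≠ 0 := by
  have h (i j : Fin 5) (hij : i ≠ j) : a i - a j ≠ 0 := sub_ne_zero.2 (ha.ne hij)
  unfold W
  refine mul_ne_zero (mul_ne_zero (mul_ne_zero (h _ _ ?_) (h _ _ ?_)) (h _ _ ?_)) (h _ _ ?_) <;>
  · revert s
    decide

theorem L_inj {a : Fin 5 → K} (ha : Function.Injective a) {y : Fin 4 → K}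
    (h : ∀ s, L a s y = 0) : y = 0 := by
  funext b
  have h1 := mem_of_L (I := ⊥) (a := a) (y := y) (fun s => by rw [h s]; exact Ideal.zero_mem _) b
  rw [Ideal.mem_bot] at h1
  rcases mul_eq_zero.1 h1 with h2 | h2
  · exact absurd h2 (mul_ne_zero two_ne_zero (W_ne ha 0))
  · exact h2

/-- the ten linear forms as a linear map -/
def Lmap (a : Fin 5 → K) : (Fin 4 → K) →ₗ[K] (Fin 10 → K) where
  toFun y s := L a s y
  map_add' x y := by
    funext s
    simp only [L, lf, Pi.add_apply]
    ring
  map_smul' c y := by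
    funext s
    simp only [L, lf, Pi.smul_apply, smul_eq_mul, RingHom.id_apply]
    ring

/-- the six linear forms as a linear map -/
def umap (a : Fin 5 → K) : (Fin 4 → K) →ₗ[K] (Fin 6 → K) where
  toFun y s := u a s y
  map_add' x y := by
    funext s
    simp only [u, Pi.add_apply]
    fin_cases s <;> simp <;> ring
  map_smul' c y := by
    funext s
    simp only [u, Pi.smul_apply, smul_eq_mul, RingHom.id_apply]
    fin_cases s <;> simp <;> ring

end field

end Pool.Agent.H433.GT
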