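import Pool.Agent.H433.GT.Loc2
import Pool.Agent.H433.GT.Lin
import Pool.Agent.H433.AC.Fin

/-!
Multiplicities of primes in the ideals generated by the coordinates.
-/

set_option autoImplicit false
set_option linter.unusedSectionVars false

open NumberField IsDedekindDomain Finset

namespace Pool.Agent.H433.GT

open Pool.Agent.H433.AC

variable {K : Type} [Field K] [NumberField K]

/-- the multiplicity of a prime in an ideal -/
noncomputable def mi (v : HeightOneSpectrum (𝓞 K)) (I : Ideal (𝓞 K)) : ℕ :=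
  multiplicity v.asIdeal I

theorem le_mi {v : HeightOneSpectrum (𝓞 K)} {I : Ideal (𝓞 K)} (hI : I ≠ ⊥) (t : ℕ) :
    v.asIdeal ^ t ∣ I ↔ t ≤ mi v I := by
  have h2 : FiniteMultiplicity v.asIdeal I := by
    refine FiniteMultiplicity.of_not_isUnit ?_ hI
    rw [Ideal.isUnit_iff]
    exact v.isPrime.ne_top
  unfold mi
  rw [← h2.pow_dvd_iff_le_multiplicity]

theorem span_ne {ι : Type} {z : ι → 𝓞 K} {i : ι} (hi : z i ≠ 0) :
    Ideal.span (Set.range z) ≠ ⊥ := by
  intro h0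
  rw [Ideal.span_eq_bot] at h0
  exact hi (h0 _ ⟨i, rfl⟩)

theorem le_mi_span {ι : Type} {v : HeightOneSpectrum (𝓞 K)} {z : ι → 𝓞 K} {i : ι}
    (hi : z i ≠ 0) (t : ℕ) :
    t ≤ mi v (Ideal.span (Set.range z)) ↔ ∀ i, z i ∈ v.asIdeal ^ t := by
  rw [← le_mi (span_ne hi), Ideal.dvd_iff_le, Ideal.span_le, Set.range_subset_iff]
  rfl

theorem log_absNorm {I : Ideal (𝓞 K)} (hI : I ≠ ⊥) (V : Finset (HeightOneSpectrum (𝓞 K)))
    (hV : ∀ v : HeightOneSpectrum (𝓞 K), v.asIdeal ∣ I → v ∈ V) :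
    Real.log (Ideal.absNorm I) = ∑ v ∈ V, (mi v I : ℝ) * Real.log (nv v) := by
  have h2 := Ideal.finprod_heightOneSpectrum_pow_multiplicity hI
  rw [finprod_eq_prod_of_mulSupport_subset (s := V) _ ?_] at h2
  · have h3 : Ideal.absNorm I = ∏ v ∈ V, nv v ^ mi v I := by
      conv_lhs => rw [← h2, map_prod]
      refine prod_congr rfl fun v _ => ?_
      rw [map_pow]
      rfl
    rw [h3]
    push_cast
    rw [Real.log_prod]
    · refine sum_congr rfl fun v _ => ?_
      rw [Real.log_pow]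
    · intro v _
      have := one_lt_nv v
      positivity
  · intro v hv
    rw [Function.mem_mulSupport] at hv
    apply hV
    have h4 := le_mi (v := v) hI 1
    rw [pow_one] at h4
    rw [h4]
    by_contra h
    apply hv
    have : mi v I = 0 := by omega
    unfold mi at this
    rw [this, pow_zero]

theorem mp_mul {v : HeightOneSpectrum (𝓞 K)} {x y : 𝓞 K} (hx : x ≠ 0) (hy : y ≠ 0) :
    mp v (x * y) = mp v x + mp v y := by
  have h1 : Ideal.span {x * y} ≠ ⊥ := by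
    rw [Ne, Ideal.span_singleton_eq_bot]
    exact mul_ne_zero hx hy
  have h2 : FiniteMultiplicity v.asIdeal (Ideal.span {x * y}) := by
    refine FiniteMultiplicity.of_not_isUnit ?_ h1
    rw [Ideal.isUnit_iff]
    exact v.isPrime.ne_top
  unfold mp
  rw [← Ideal.span_singleton_mul_span_singleton] at h2 ⊢
  exact multiplicity_mul v.prime h2

theorem mp_prod {v : HeightOneSpectrum (𝓞 K)} {ι : Type} (s : Finset ι) (f : ι → 𝓞 K)
    (hf : ∀ i ∈ s, f i ≠ 0) : mp v (∏ i ∈ s, f i) = ∑ i ∈ s, mp v (f i) := by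
  classical
  induction s using Finset.induction_on with
  | empty =>
    rw [prod_empty, sum_empty]
    have h := mem_iff_mp (v := v) (x := (1 : 𝓞 K)) one_ne_zero
    have h1 : (1 : 𝓞 K) ∉ v.asIdeal := fun h => v.isPrime.ne_top ((Ideal.eq_top_iff_one _).2 h)
    rw [h] at h1
    omega
  | insert i s hi ih =>
    rw [prod_insert hi, sum_insert hi, mp_mul (hf i (mem_insert_self i s))
      (prod_ne_zero_iff.2 fun j hj => hf j (mem_insert_of_mem hj)),
      ih fun j hj => hf j (mem_insert_of_mem hj)]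

theorem mem_of_mul {v : HeightOneSpectrum (𝓞 K)} {x y : 𝓞 K} (hx : x ≠ 0) {t : ℕ}
    (h : x * y ∈ v.asIdeal ^ (t + mp v x)) : y ∈ v.asIdeal ^ t := by
  rcases eq_or_ne y 0 with rfl | hy
  · exact Ideal.zero_mem _
  · rw [le_mp (mul_ne_zero hx hy), mp_mul hx hy] at h
    rw [le_mp hy]
    omega

theorem F_sub (s : Fin 10) : F s ⊆ prs 5 := by
  revert s
  decide

theorem W_eq {R : Type*} [CommRing R] (a : Fin 5 → R) (s : Fin 10) :
    W a s = ∏ q ∈ F s, (a q.1 - a q.2) := by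
  have h1 : ∀ s : Fin 10, ((tr s).1, (tr s).2.1) ∉ ({((tr s).1, (tr s).2.2),
      ((tr s).2.1, (tr s).2.2), pr s} : Finset (Fin 5 × Fin 5)) := by decide
  have h2 : ∀ s : Fin 10, ((tr s).1, (tr s).2.2) ∉ ({((tr s).2.1, (tr s).2.2), pr s} :
      Finset (Fin 5 × Fin 5)) := by decide
  have h3 : ∀ s : Fin 10, ((tr s).2.1, (tr s).2.2) ∉ ({pr s} : Finset (Fin 5 × Fin 5)) := by
    decide
  unfold F W
  rw [prod_insert (h1 s), prod_insert (h2 s), prod_insert (h3 s), prod_singleton]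
  ring

theorem Wne {a : Fin 5 → 𝓞 K} (h : Dif a) (s : Fin 10) : W a s ≠ 0 := by
  rw [W_eq]
  exact prod_ne_zero_iff.2 fun q hq => h q (F_sub s hq)

theorem mp_W_le {a : Fin 5 → 𝓞 K} (h : Dif a) (v : HeightOneSpectrum (𝓞 K)) (s : Fin 10) :
    mp v (W a s) ≤ ∑ q ∈ prs 5, mp v (a q.1 - a q.2) := by
  rw [W_eq, mp_prod _ _ fun q hq => h q (F_sub s hq)]
  exact sum_le_sum_of_subset (F_sub s)

/-- the general local estimate -/
theorem loc_gen {a : Fin 5 → 𝓞 K} (h : Dif a) {z : Fin 4 → 𝓞 K}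
    {v : HeightOneSpectrum (𝓞 K)} {m : ℕ} (hz : ¬ ∀ b, z b ∈ v.asIdeal ^ (m + 1)) :
    ∃ s, W a s * L a s z ^ 2 ∉ v.asIdeal ^
      (2 * m + (3 * (∑ q ∈ prs 5, mp v (a q.1 - a q.2)) + 2 * mp v 2) + 1) := by
  set μ := ∑ q ∈ prs 5, mp v (a q.1 - a q.2) with hμ
  by_contra hcon
  push Not at hcon
  apply hz
  have h1 (s : Fin 10) : L a s z ∈ v.asIdeal ^ (m + 1 + μ + mp v 2) := by
    have h2 := mp_W_le h v s
    have h3 : L a s z ^ 2 ∈ v.asIdeal ^ (2 * m + (3 * μ + 2 * mp v 2) + 1 - mp v (W a s)) := by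
      refine mem_of_mul (Wne h s) ?_
      rw [Nat.sub_add_cancel (by omega)]
      exact hcon s
    rcases eq_or_ne (L a s z) 0 with h0 | h0
    · rw [h0]
      exact Ideal.zero_mem _
    · rw [le_mp (pow_ne_zero 2 h0), pow_two, mp_mul h0 h0] at h3
      rw [le_mp h0]
      omega
  intro b
  have h2 := mem_of_L h1 b
  have h3 := mp_W_le h v 0
  have h4 : (2 : 𝓞 K) * W a 0 ≠ 0 := mul_ne_zero two_ne_zero (Wne h 0)
  refine mem_of_mul h4 (Ideal.pow_le_pow_right ?_ h2)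
  rw [mp_mul two_ne_zero (Wne h 0)]
  omega

theorem mem_pow {v : HeightOneSpectrum (𝓞 K)} (x : 𝓞 K) (t : ℕ) :
    x ∈ v.asIdeal ^ t ↔ v.valuation K (x : K) ≤ WithZero.exp (-(t : ℤ)) := by
  have h3 : v.valuation K (x : K) = v.intValuation x :=
    HeightOneSpectrum.valuation_of_algebraMap _ _
  rw [h3, v.intValuation_le_pow_iff_mem]

theorem lt_pow {v : HeightOneSpectrum (𝓞 K)} (x : 𝓞 K) (t : ℕ) :
    x ∈ v.asIdeal ^ (t + 1) ↔ v.valuation K (x : K) < WithZero.exp (-(t : ℤ)) := by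
  rw [mem_pow]
  rcases eq_or_ne (v.valuation K (x : K)) 0 with h0 | h0
  · rw [h0]
    simp
  · rw [← WithZero.log_le_iff_le_exp h0, ← WithZero.log_lt_iff_lt_exp h0]
    push_cast
    omega

theorem le_of_simple {v : HeightOneSpectrum (𝓞 K)} {a : 𝓞 K} (h2 : a ∉ v.asIdeal ^ 2)
    {y : K} (hy : v.valuation K y < 1) : v.valuation K y ≤ v.valuation K (a : K) := by
  have ha : a ≠ 0 := by
    rintro rfl
    exact h2 (Ideal.zero_mem _)
  rcases eq_or_ne (v.valuation K y) 0 with h0 | h0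
  · rw [h0]
    exact zero_le
  have h3 : v.valuation K (a : K) = v.intValuation a :=
    HeightOneSpectrum.valuation_of_algebraMap _ _
  have h4 : v.intValuation a ≠ 0 := v.intValuation_ne_zero a ha
  have h5 : ¬ v.intValuation a ≤ WithZero.exp (-(2 : ℕ) : ℤ) := by
    rw [v.intValuation_le_pow_iff_mem]
    exact h2
  rw [← WithZero.log_le_iff_le_exp h4, not_le] at h5
  rw [← WithZero.exp_zero, ← WithZero.log_lt_iff_lt_exp h0] at hy
  rw [h3, ← WithZero.log_le_log h0 h4]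
  push_cast at h5
  omega

theorem L_co (a : Fin 5 → 𝓞 K) (s : Fin 10) (z : Fin 4 → 𝓞 K) :
    ((L a s z : 𝓞 K) : K) = L (fun i => (a i : K)) s (fun b => (z b : K)) := by
  simp [L, lf]

/-- the local estimate at a simple place -/
theorem loc_simple {a : Fin 5 → 𝓞 K} (h : Dif a) {z : Fin 4 → 𝓞 K} {t : K}
    (hS : ∀ s, Sq t ((L a s z : 𝓞 K) : K)) {v : HeightOneSpectrum (𝓞 K)} {p : Fin 5 × Fin 5}
    (hp : p ∈ prs 5) (hs : Simple 2 a p v) {m : ℕ} (hz : ∀ b, z b ∈ v.asIdeal ^ m)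
    (hz' : ¬ ∀ b, z b ∈ v.asIdeal ^ (m + 1)) :
    ∃ s, W a s * L a s z ^ 2 ∉ v.asIdeal ^ (2 * m + 1) := by
  by_contra hcon
  push Not at hcon
  obtain ⟨g1, g2, g3, g4⟩ := hs
  set w := v.valuation K with hw
  have e2 : w 2 = 1 := by
    have := (v.valuation_eq_one_iff_notMem (K := K) (r := ((2 : ℕ) : 𝓞 K))).2 g1
    rw [← this]
    congr 1
  have hdif (q : Fin 5 × Fin 5) : ((a q.1 - a q.2 : 𝓞 K) : K) = (a q.1 : K) - (a q.2 : K) := by
    simp
  have hn (q : Fin 5 × Fin 5) (hq : q ∈ prs 5) (hqp : q ≠ p) :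
      w ((a q.1 : K) - (a q.2 : K)) = 1 := by
    rw [← hdif]
    exact (v.valuation_eq_one_iff_notMem (K := K)).2 fun hm => hqp (g4 q hq hm)
  push Not at hz'
  obtain ⟨b, hb⟩ := hz'
  refine simple_max (w := w) (a := fun i => (a i : K)) (z := fun b => (z b : K)) (t := t)
    (r := WithZero.exp (-(m : ℤ))) e2 (fun i => v.valuation_le_one (a i)) hp hn ?_ ?_ ?_
    (WithZero.coe_ne_zero) (fun b => (mem_pow _ _).1 (hz b)) ⟨b, ?_⟩ (fun s => ?_) fun s hsF => ?_
  · rw [← hdif, Ne, map_eq_zero]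
    have := h p hp
    exact_mod_cast this
  · rw [← hdif]
    exact (v.valuation_lt_one_iff_mem (K := K) _).2 g2
  · intro x hx
    rw [← hdif]
    exact le_of_simple g3 hx
  · by_contra hlt
    rw [not_le] at hlt
    exact hb ((lt_pow _ _).2 hlt)
  · rw [← L_co]
    exact hS s
  · rw [← L_co, ← lt_pow]
    have h1 : W a s ∉ v.asIdeal := by
      rw [W_eq]
      intro hm
      obtain ⟨q, hq, hqv⟩ := (Ideal.IsPrime.prod_mem_iff (hp := v.isPrime)).1 hm
      have := g4 q (F_sub s hq) hqv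
      rw [this] at hq
      exact hsF hq
    have h2 : L a s z ^ 2 ∈ v.asIdeal ^ (2 * m + 1) := by
      rcases v.isPrime.mul_mem_pow _ (hcon s) with h3 | h3
      · exact absurd h3 h1
      · exact h3
    rcases eq_or_ne (L a s z) 0 with h0 | h0
    · rw [h0]
      exact Ideal.zero_mem _
    · rw [le_mp (pow_ne_zero 2 h0), pow_two, mp_mul h0 h0] at h2
      rw [le_mp h0]
      omega

end Pool.Agent.H433.GT
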