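import Pool.Agent.H433.GT.Def

/-!
The sixteen products.
-/

set_option autoImplicit false

namespace Pool.Agent.H433.GT

variable {R : Type*} [CommRing R]

/-- the six linear forms which belong to the branch points -/
def u (a : Fin 5 → R) (i : Fin 6) (x : Fin 4 → R) : R :=
  ![a 0 ^ 2 * x 0 - a 0 * x 1 + x 2, a 1 ^ 2 * x 0 - a 1 * x 1 + x 2,
    a 2 ^ 2 * x 0 - a 2 * x 1 + x 2, a 3 ^ 2 * x 0 - a 3 * x 1 + x 2, a 4 ^ 2 * x 0 - a 4 * x 1 + x 2, x 0] i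

/-- the products of the differences of the branch points with one point left out -/
def V (a : Fin 5 → R) (i : Fin 6) : R :=
  ![(a 1 - a 2) * (a 1 - a 3) * (a 1 - a 4) * (a 2 - a 3) * (a 2 - a 4) * (a 3 - a 4),
    (a 0 - a 2) * (a 0 - a 3) * (a 0 - a 4) * (a 2 - a 3) * (a 2 - a 4) * (a 3 - a 4),
    (a 0 - a 1) * (a 0 - a 3) * (a 0 - a 4) * (a 1 - a 3) * (a 1 - a 4) * (a 3 - a 4),
    (a 0 - a 1) * (a 0 - a 2) * (a 0 - a 4) * (a 1 - a 2) * (a 1 - a 4) * (a 2 - a 4),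
    (a 0 - a 1) * (a 0 - a 2) * (a 0 - a 3) * (a 1 - a 2) * (a 1 - a 3) * (a 2 - a 3),
    (a 0 - a 1) * (a 0 - a 2) * (a 0 - a 3) * (a 0 - a 4) * (a 1 - a 2) * (a 1 - a 3) * (a 1 - a 4) *
      (a 2 - a 3) * (a 2 - a 4) * (a 3 - a 4)] i

/-- the sixteen products -/
def al (a : Fin 5 → R) (x : Fin 4 → R) : Fin 10 ⊕ Fin 6 → R :=
  Sum.elim (fun s => W a s * L a s x ^ 2) fun i => V a i * u a i x ^ 2

/-- a matrix of signs -/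
def E1 : Fin 10 → Fin 10 → ℤ :=
  ![![1, 1, -1, 1, -1, 1, -1, 1, -1, 1],
    ![1, 1, 1, -1, 1, 1, -1, 1, -1, -1],
    ![-1, 1, 1, 1, 1, 1, 1, -1, -1, -1],
    ![1, -1, 1, 1, -1, 1, 1, -1, -1, 1],
    ![-1, 1, 1, -1, 1, 1, -1, -1, 1, 1],
    ![1, 1, 1, 1, 1, 1, 1, 1, 1, 1],
    ![-1, -1, 1, 1, -1, 1, 1, 1, 1, -1],
    ![1, 1, -1, -1, -1, 1, 1, 1, 1, -1],
    ![-1, -1, -1, -1, 1, 1, 1, 1, 1, 1],
    ![1, -1, -1, 1, 1, 1, -1, -1, 1, 1]]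

/-- a matrix of signs -/
def E2 : Fin 6 → Fin 10 → ℤ :=
  ![![1, -1, 1, -1, -1, 1, -1, -1, 1, -1],
    ![-1, -1, 1, -1, -1, 1, -1, 1, -1, 1],
    ![-1, -1, -1, 1, 1, 1, -1, 1, -1, -1],
    ![1, -1, -1, -1, 1, 1, 1, -1, -1, -1],
    ![-1, 1, -1, -1, -1, 1, 1, -1, -1, 1],
    ![-1, 1, -1, 1, -1, 1, -1, -1, 1, -1]]

end Pool.Agent.H433.GT
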