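import Pool.Agent.H433.AC.Def
import Mathlib.NumberTheory.Height.NumberField

/-!
Definitions: the Jacobians of the curves `d y ^ 2 = (x - a_0) ... (x - a_4)` of genus two, their
Kummer surfaces, and the duplication.

A point `P` of the Jacobian, the class of `(x₁, y₁) + (x₂, y₂) - 2 ∞`, has the image
`x = (1, x₁ + x₂, x₁ x₂, (F₀ - 2 d y₁ y₂) / (x₁ - x₂) ^ 2)` on the Kummer surface in the projective
space; the origin has the image `(0, 0, 0, 1)`. For each of the ten partitions of the six branch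
points `a_0, ..., a_4, ∞` in two sets with three elements there are a linear form `L` and a
quadratic form `Q` such that `L (2 P) = Q (P) ^ 2` (up to a common factor).
-/

set_option autoImplicit false

open NumberField IsDedekindDomain Finset Filter Topology

namespace Pool.Agent.H433.GT

open Pool.Agent.H433.AC

section forms

variable {R : Type*} [CommRing R]

/-- the ten pairs `{l, m}`; the partitions are `{l, m, ∞}` and its complement -/
def pr (s : Fin 10) : Fin 5 × Fin 5 :=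
  ![(0, 1), (0, 2), (0, 3), (0, 4), (1, 2), (1, 3), (1, 4), (2, 3), (2, 4), (3, 4)] s

/-- the complements of the ten pairs -/
def tr (s : Fin 10) : Fin 5 × Fin 5 × Fin 5 :=
  ![(2, 3, 4), (1, 3, 4), (1, 2, 4), (1, 2, 3), (0, 3, 4), (0, 2, 4), (0, 2, 3), (0, 1, 4),
    (0, 1, 3), (0, 1, 2)] s

/-- the linear form of the partition `{p, q, r}`, `{l, m, ∞}` of the branch points -/
def lf (p q r l m : R) (y : Fin 4 → R) : R :=
  y 3 - (l + m) * y 2 + l * m * y 1 - ((p + q + r) * (l * m) + p * q * r) * y 0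

/-- the quadratic form of the partition `{p, q, r}`, `{l, m, ∞}` of the branch points, in terms of
the elementary symmetric functions `g` of `p, q, r` and `e` of `l, m` -/
def qf (g₁ g₂ g₃ e₁ e₂ : R) (x : Fin 4 → R) : R :=
  x 3 ^ 2 + 2 * x 3 * (e₂ * x 1 - e₁ * x 2 - (g₁ * e₂ + g₃) * x 0) +
    (e₂ + g₁ * e₁ - g₂) * x 2 ^ 2 + 2 * (g₃ - g₁ * e₂) * (x 1 * x 2) +
    (g₂ * e₂ - g₃ * e₁) * x 1 ^ 2 + 2 * (g₁ * e₁ * e₂ + g₂ * e₂ - e₂ ^ 2) * (x 0 * x 2) +
    2 * (g₃ * e₁ ^ 2 - g₂ * e₁ * e₂ - 2 * g₃ * e₂) * (x 0 * x 1) +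
    (g₂ * e₂ ^ 2 - g₃ * e₁ * e₂ + g₁ * g₂ * e₁ * e₂ + 4 * g₁ * g₃ * e₂ - g₁ * g₃ * e₁ ^ 2 -
      g₂ ^ 2 * e₂ + g₂ * g₃ * e₁) * x 0 ^ 2

/-- the ten linear forms -/
def L (a : Fin 5 → R) (s : Fin 10) (y : Fin 4 → R) : R :=
  lf (a (tr s).1) (a (tr s).2.1) (a (tr s).2.2) (a (pr s).1) (a (pr s).2) y

/-- the ten quadratic forms -/
def Q (a : Fin 5 → R) (s : Fin 10) (x : Fin 4 → R) : R :=
  qf (a (tr s).1 + a (tr s).2.1 + a (tr s).2.2)
    (a (tr s).1 * a (tr s).2.1 + a (tr s).1 * a (tr s).2.2 + a (tr s).2.1 * a (tr s).2.2)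
    (a (tr s).1 * a (tr s).2.1 * a (tr s).2.2) (a (pr s).1 + a (pr s).2)
    (a (pr s).1 * a (pr s).2) x

/-- The ten products of differences of the branch points in the same part of the partition. By the
formula of Thomae they are, up to a common factor and up to signs, the fourth powers of the ten
even theta constants. -/
def W (a : Fin 5 → R) (s : Fin 10) : R :=
  (a (tr s).1 - a (tr s).2.1) * (a (tr s).1 - a (tr s).2.2) * (a (tr s).2.1 - a (tr s).2.2) *
    (a (pr s).1 - a (pr s).2)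

end forms

variable {K : Type} [Field K]

/-- the coefficients of `(x - a_0) ... (x - a_4)` -/
noncomputable def co (a : Fin 5 → K) (k : ℕ) : K :=
  (∏ i, (Polynomial.X - Polynomial.C (a i))).coeff k

/-- the equation of the Kummer surface -/
def Kummer (a : Fin 5 → K) (x : Fin 4 → K) : Prop :=
  (x 1 ^ 2 - 4 * x 0 * x 2) * x 3 ^ 2 -
    2 * (2 * co a 0 * x 0 ^ 3 + co a 1 * x 0 ^ 2 * x 1 + 2 * co a 2 * x 0 ^ 2 * x 2 +
      co a 3 * x 0 * x 1 * x 2 + 2 * co a 4 * x 0 * x 2 ^ 2 + x 1 * x 2 ^ 2) * x 3 +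
    ((co a 1 ^ 2 - 4 * co a 0 * co a 2) * x 0 ^ 4 - 4 * co a 0 * co a 3 * x 0 ^ 3 * x 1 -
      2 * co a 1 * co a 3 * x 0 ^ 3 * x 2 - 4 * co a 0 * co a 4 * x 0 ^ 2 * x 1 ^ 2 +
      4 * (co a 0 - co a 1 * co a 4) * x 0 ^ 2 * x 1 * x 2 +
      (co a 3 ^ 2 + 2 * co a 1 - 4 * co a 2 * co a 4) * x 0 ^ 2 * x 2 ^ 2 -
      4 * co a 0 * x 0 * x 1 ^ 3 - 4 * co a 1 * x 0 * x 1 ^ 2 * x 2 -
      4 * co a 2 * x 0 * x 1 * x 2 ^ 2 - 2 * co a 3 * x 0 * x 2 ^ 3 + x 2 ^ 4) = 0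

/-- `X n` are coordinates of the image of `2 ^ n P` on the Kummer surface. -/
def Orbit (a : Fin 5 → K) (X : ℕ → Fin 4 → K) : Prop :=
  (∀ n, X n ≠ 0 ∧ Kummer a (X n)) ∧
    ∀ n, ∃ t : K, t ≠ 0 ∧ ∀ s, L a s (X (n + 1)) = t * Q a s (X n) ^ 2

variable [NumberField K]

/-- the canonical height, relative to `K` -/
noncomputable def hhat (X : ℕ → Fin 4 → K) : ℝ :=
  limUnder atTop fun n : ℕ => Height.logHeight (X n) / 4 ^ n

/-- the height of the point of the moduli space -/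
noncomputable def hm (a : Fin 5 → 𝓞 K) : ℝ :=
  Height.logHeight (W fun i => (a i : K))

/-- the point with the coordinates `y` is congruent to the origin modulo `v` -/
def Zero (y : Fin 4 → K) (v : HeightOneSpectrum (𝓞 K)) : Prop :=
  ∀ b, b ≠ 3 → v.valuation K (y b) < v.valuation K (y 3)

/-- The inequality of Lang and Silverman, with explicit constants, for the Jacobian of the curve
with the branch points `a_0, ..., a_4, ∞`, for all its quadratic twists, and for all the points `P`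
of these twists with `2 P ≠ 0`. -/
def LangSilverman (ε : ℝ) (H : ℕ) (a : Fin 5 → 𝓞 K) : Prop :=
  Function.Injective a ∧
  |hm a - 4 * (Module.finrank ℚ K * Real.log H)| ≤ ε * (Module.finrank ℚ K * Real.log H) ∧
  ∀ X : ℕ → Fin 4 → K, Orbit (fun i => (a i : K)) X →
    Tendsto (fun n : ℕ => Height.logHeight (X n) / 4 ^ n) atTop (𝓝 (hhat X)) ∧
    ((∀ b, b ≠ 3 → X 1 b = 0) ∨
      ∀ S : Finset (HeightOneSpectrum (𝓞 K)), (∀ v ∈ S, Zero (X 1) v) →
        (1 / 8 - ε) * hm a + 1 / 4 * ∑ v ∈ S, Real.log (nv v) ≤ hhat X ∧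
        (X 1 0 ≠ 0 → (3 / 16 - ε) * hm a + 1 / 4 * ∑ v ∈ S, Real.log (nv v) ≤ hhat X))

end Pool.Agent.H433.GT
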