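import Pool.Agent.H433.GT.Mult
import Mathlib.NumberTheory.Height.NumberField

/-!
The ideal and the height of the sixteen products at the double of a point.
-/

set_option autoImplicit false
set_option linter.unusedSectionVars false

open NumberField IsDedekindDomain Finset

namespace Pool.Agent.H433.GT

open Pool.Agent.H433.AC

variable {K : Type} [Field K] [NumberField K]

/-- the contribution of the places which are not simple -/
noncomputable def ex {a : Fin 5 → 𝓞 K} (h : Dif a) : ℝ :=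
  3 * ∑ p ∈ prs 5, (Real.log (Nm (a p.1 - a p.2)) - Lp 2 h p) + 2 * Real.log (Nm (2 : 𝓞 K))

theorem log_Nm {x : 𝓞 K} (hx : x ≠ 0) (V : Finset (HeightOneSpectrum (𝓞 K)))
    (hV : ∀ v : HeightOneSpectrum (𝓞 K), x ∈ v.asIdeal → v ∈ V) :
    Real.log (Nm x) = ∑ v ∈ V, (mp v x : ℝ) * Real.log (nv v) := by
  have h1 : Ideal.span {x} ≠ ⊥ := by
    rw [Ne, Ideal.span_singleton_eq_bot]
    exact hx
  exact log_absNorm h1 V fun v hv => hV v (Ideal.dvd_span_singleton.1 hv)

/-- a general estimate for ideals -/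
theorem norm_le {a : Fin 5 → 𝓞 K} (h : Dif a) {I J : Ideal (𝓞 K)} (hI : I ≠ ⊥) (hJ : J ≠ ⊥)
    (h1 : ∀ v : HeightOneSpectrum (𝓞 K), mi v J ≤ 2 * mi v I +
      (3 * (∑ q ∈ prs 5, mp v (a q.1 - a q.2)) + 2 * mp v 2))
    (h2 : ∀ v : HeightOneSpectrum (𝓞 K), ∀ p ∈ prs 5, Simple 2 a p v → mi v J ≤ 2 * mi v I) :
    Real.log (Ideal.absNorm J) ≤ 2 * Real.log (Ideal.absNorm I) + ex h := by
  classical
  set V : Finset (HeightOneSpectrum (𝓞 K)) := (Ideal.finite_factors hI).toFinset ∪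
    ((Ideal.finite_factors hJ).toFinset ∪ (Vf h ∪
      (finite_mem (two_ne_zero : (2 : 𝓞 K) ≠ 0)).toFinset)) with hV
  have hVI (v : HeightOneSpectrum (𝓞 K)) (hv : v.asIdeal ∣ I) : v ∈ V := by
    rw [hV, mem_union, Set.Finite.mem_toFinset]
    exact Or.inl hv
  have hVJ (v : HeightOneSpectrum (𝓞 K)) (hv : v.asIdeal ∣ J) : v ∈ V := by
    rw [hV, mem_union, mem_union, Set.Finite.mem_toFinset, Set.Finite.mem_toFinset]
    exact Or.inr (Or.inl hv)
  have hV2 (v : HeightOneSpectrum (𝓞 K)) (hv : (2 : 𝓞 K) ∈ v.asIdeal) : v ∈ V := by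
    rw [hV, mem_union, mem_union, mem_union]
    refine Or.inr (Or.inr (Or.inr ?_))
    rw [Set.Finite.mem_toFinset]
    exact hv
  have hVf : Vf h ⊆ V := fun v hv => by
    rw [hV, mem_union, mem_union, mem_union]
    exact Or.inr (Or.inr (Or.inl hv))
  have hVd (p : Fin 5 × Fin 5) (hp : p ∈ prs 5) (v : HeightOneSpectrum (𝓞 K))
      (hv : a p.1 - a p.2 ∈ v.asIdeal) : v ∈ V := hVf (mem_Vf h hp hv)
  have e1 := log_absNorm hI V hVI
  have e2 := log_absNorm hJ V hVJ
  have e3 := log_Nm (two_ne_zero : (2 : 𝓞 K) ≠ 0) V hV2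
  have e4 (p : Fin 5 × Fin 5) (hp : p ∈ prs 5) : Real.log (Nm (a p.1 - a p.2)) =
      ∑ v ∈ V, (mp v (a p.1 - a p.2) : ℝ) * Real.log (nv v) := log_Nm (h p hp) V (hVd p hp)
  have e5 (p : Fin 5 × Fin 5) (hp : p ∈ prs 5) : Lp 2 h p =
      ∑ v ∈ V, (if Simple 2 a p v then (1 : ℝ) else 0) * Real.log (nv v) := by
    unfold Lp
    rw [← sum_subset hVf fun v _ hv => ?_]
    · refine sum_congr rfl fun v _ => ?_
      split_ifs <;> simp
    · rw [if_neg, zero_mul]
      intro hs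
      exact hv (mem_Vf h hp hs.2.1)
  have e6 : ex h = ∑ v ∈ V, (3 * ∑ p ∈ prs 5, ((mp v (a p.1 - a p.2) : ℝ) -
      if Simple 2 a p v then (1 : ℝ) else 0) + 2 * mp v 2) * Real.log (nv v) := by
    unfold ex
    rw [e3, sum_congr rfl fun p hp => by rw [e4 p hp, e5 p hp, ← sum_sub_distrib], sum_comm,
      mul_sum, mul_sum, ← sum_add_distrib]
    refine sum_congr rfl fun v _ => ?_
    rw [add_mul, mul_assoc, sum_mul]
    congr 1
    · congr 1
      refine sum_congr rfl fun p _ => ?_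
      ring
    · ring
  rw [e1, e2, e6, mul_sum, ← sum_add_distrib]
  refine sum_le_sum fun v _ => ?_
  have h0 := log_nv_pos v
  rw [← mul_assoc, ← add_mul]
  refine mul_le_mul_of_nonneg_right ?_ h0.le
  have hmp (p : Fin 5 × Fin 5) (hp : p ∈ prs 5) : (0 : ℝ) ≤ (mp v (a p.1 - a p.2) : ℝ) -
      if Simple 2 a p v then (1 : ℝ) else 0 := by
    split_ifs with hs
    · have : 1 ≤ mp v (a p.1 - a p.2) := (mem_iff_mp (h p hp)).1 hs.2.1
      have : (1 : ℝ) ≤ mp v (a p.1 - a p.2) := by exact_mod_cast this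
      linarith
    · simp
  by_cases hex : ∃ p ∈ prs 5, Simple 2 a p v
  · obtain ⟨p, hp, hs⟩ := hex
    have h3 : (mi v J : ℝ) ≤ 2 * mi v I := by exact_mod_cast h2 v p hp hs
    have h4 := sum_nonneg hmp
    have h5 : (0 : ℝ) ≤ 2 * mp v 2 := by positivity
    linarith
  · push Not at hex
    have h3 : (mi v J : ℝ) ≤ 2 * mi v I + (3 * (∑ q ∈ prs 5, (mp v (a q.1 - a q.2) : ℝ)) +
        2 * mp v 2) := by exact_mod_cast h1 v
    rw [sum_congr rfl fun p hp => by rw [if_neg (hex p hp), sub_zero]]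
    exact h3

theorem ex_le {Y R : ℝ} (hY : 1 ≤ Y) (hR : 0 ≤ R) {a : Fin 5 → 𝓞 K}
    (ha : ¬ Exceptional Y R a) (h : Dif a) :
    ex h ≤ 390 * Real.log Y + 32 * Real.log (Nm (2 : 𝓞 K)) := by
  have h1 : ∑ p ∈ prs 5, (Real.log (Nm (a p.1 - a p.2)) - Lp 2 h p) ≤
      ∑ _p ∈ prs 5, (13 * Real.log Y + Real.log (Nm (2 : 𝓞 K))) := by
    refine sum_le_sum fun p hp => ?_
    have h2 := le_Lp (m := 2) (by norm_num) hY hR ha h hp
    have h3 : (prs 5).card = 10 := by decide
    rw [h3] at h2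
    push_cast at h2
    linarith
  rw [sum_const, nsmul_eq_mul, show (prs 5).card = 10 by decide] at h1
  unfold ex
  push_cast at h1
  linarith

/-- the ideal of the sixteen products at the double of a point -/
theorem norm_al {a : Fin 5 → 𝓞 K} (h : Dif a) {z : Fin 4 → 𝓞 K} {b : Fin 4} (hb : z b ≠ 0)
    {t : K} (hS : ∀ s, Sq t ((L a s z : 𝓞 K) : K)) :
    (∃ j, al a z j ≠ 0) ∧ Real.log (Ideal.absNorm (Ideal.span (Set.range (al a z)))) ≤
      2 * Real.log (Ideal.absNorm (Ideal.span (Set.range z))) + ex h := by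
  have key (v : HeightOneSpectrum (𝓞 K)) : ¬ ∀ b, z b ∈ v.asIdeal ^
      (mi v (Ideal.span (Set.range z)) + 1) := by
    rw [← le_mi_span hb]
    omega
  have h0 : ∃ j, al a z j ≠ 0 := by
    by_contra hcon
    push Not at hcon
    have h1 (s : Fin 10) : L a s z = 0 := by
      have h2 := hcon (Sum.inl s)
      have h3 : W a s * L a s z ^ 2 = 0 := h2
      rcases mul_eq_zero.1 h3 with h4 | h4
      · exact absurd h4 (Wne h s)
      · exact pow_eq_zero_iff (two_ne_zero) |>.1 h4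
    have h5 := mem_of_L (I := ⊥) (a := a) (y := z) (fun s => by rw [h1 s]; exact Ideal.zero_mem _) b
    rw [Ideal.mem_bot] at h5
    exact mul_ne_zero (mul_ne_zero two_ne_zero (Wne h 0)) hb h5
  obtain ⟨j, hj⟩ := h0
  refine ⟨⟨j, hj⟩, norm_le h (span_ne hb) (span_ne hj) (fun v => ?_) fun v p hp hs => ?_⟩
  · obtain ⟨s, hs⟩ := loc_gen h (key v)
    by_contra hcon
    rw [not_le] at hcon
    have h1 := (le_mi_span hj _).1 hcon (Sum.inl s)
    exact hs h1
  · obtain ⟨s, hs⟩ := loc_simple h hS hp hs ((le_mi_span hb _).1 le_rfl) (key v)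
    by_contra hcon
    rw [not_le] at hcon
    have h1 := (le_mi_span hj _).1 hcon (Sum.inl s)
    exact hs h1

theorem exists_F (p : Fin 5 × Fin 5) : ∃ s : Fin 10, p ∉ F s := by
  revert p
  decide

/-- the ideal of the ten products of differences -/
theorem norm_W {a : Fin 5 → 𝓞 K} (h : Dif a) :
    Real.log (Ideal.absNorm (Ideal.span (Set.range (W a)))) ≤ ex h := by
  have h0 := Wne h 0
  have hT : (⊤ : Ideal (𝓞 K)) ≠ ⊥ := top_ne_bot
  have hmT (v : HeightOneSpectrum (𝓞 K)) : mi v ⊤ = 0 := by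
    have h1 := le_mi (v := v) hT 1
    by_contra hne
    have h2 : v.asIdeal ^ 1 ∣ ⊤ := h1.2 (by omega)
    rw [pow_one, Ideal.dvd_iff_le, top_le_iff] at h2
    exact v.isPrime.ne_top h2
  have h1 := norm_le h hT (span_ne h0) (fun v => ?_) fun v p hp hs => ?_
  · rw [Ideal.absNorm_top] at h1
    simpa using h1
  · rw [hmT, mul_zero, zero_add]
    have h2 := mp_W_le h v 0
    have h3 := (le_mi_span (v := v) h0 _).1 le_rfl 0
    rw [le_mp h0] at h3
    omega
  · rw [hmT, mul_zero, Nat.le_zero]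
    by_contra hne
    have h2 : 1 ≤ mi v (Ideal.span (Set.range (W a))) := by omega
    rw [le_mi_span h0] at h2
    obtain ⟨s, hs'⟩ := exists_F p
    have h3 := h2 s
    rw [pow_one, W_eq] at h3
    obtain ⟨q, hq, hqv⟩ := (Ideal.IsPrime.prod_mem_iff (hp := v.isPrime)).1 h3
    have := hs.2.2.2 q (F_sub s hq) hqv
    rw [this] at hq
    exact hs' hq

/-- the places where the point is congruent to the origin -/
theorem norm_zero {y : Fin 4 → K} {z : Fin 4 → 𝓞 K} {c : K} (hc : c ≠ 0)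
    (hz : ∀ b, (z b : K) = c * y b) {b : Fin 4} (hb : z b ≠ 0) (hb3 : b ≠ 3)
    {S : Finset (HeightOneSpectrum (𝓞 K))} (hS : ∀ v ∈ S, Zero y v) :
    Real.log (Ideal.absNorm (Ideal.span (Set.range z))) + ∑ v ∈ S, Real.log (nv v) ≤
      Real.log (Nm (z b)) := by
  classical
  have hI := span_ne hb
  set V : Finset (HeightOneSpectrum (𝓞 K)) := (Ideal.finite_factors hI).toFinset ∪
    (S ∪ (finite_mem hb).toFinset) with hV
  have e1 := log_absNorm hI V fun v hv => by
    rw [hV, mem_union, Set.Finite.mem_toFinset]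
    exact Or.inl hv
  have e2 := log_Nm hb V fun v hv => by
    rw [hV, mem_union, mem_union]
    refine Or.inr (Or.inr ?_)
    rw [Set.Finite.mem_toFinset]
    exact hv
  have hSV : S ⊆ V := fun v hv => by
    rw [hV, mem_union, mem_union]
    exact Or.inr (Or.inl hv)
  have e3 : ∑ v ∈ S, Real.log (nv v) = ∑ v ∈ V, if v ∈ S then Real.log (nv v) else 0 := by
    rw [← sum_filter, filter_mem_eq_inter, inter_eq_right.2 hSV]
  rw [e1, e2, e3, ← sum_add_distrib]
  refine sum_le_sum fun v _ => ?_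
  have h0 := log_nv_pos v
  have h1 := (le_mi_span (v := v) hb _).1 le_rfl
  split_ifs with hv
  · have h2 : mi v (Ideal.span (Set.range z)) + 1 ≤ mp v (z b) := by
      rw [← le_mp hb, lt_pow]
      have h3 := hS v hv b hb3
      have h4 := (mem_pow (z 3) _).1 (h1 3)
      refine lt_of_lt_of_le ?_ h4
      rw [hz, hz, map_mul, map_mul]
      exact (mul_lt_mul_iff_of_pos_left (zero_lt_iff.2 (by rwa [Ne, map_eq_zero]))).2 h3
    have h3 : (mi v (Ideal.span (Set.range z)) : ℝ) + 1 ≤ mp v (z b) := by exact_mod_cast h2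
    nlinarith
  · rw [add_zero]
    have h2 : mi v (Ideal.span (Set.range z)) ≤ mp v (z b) := by
      rw [← le_mp hb]
      exact h1 b
    have h3 : (mi v (Ideal.span (Set.range z)) : ℝ) ≤ mp v (z b) := by exact_mod_cast h2
    exact mul_le_mul_of_nonneg_right h3 h0.le

end Pool.Agent.H433.GT
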