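import Pool.Agent.H433.GT.Lin

/-!
The height of the double of a point.
-/

set_option autoImplicit false

open NumberField IsDedekindDomain Finset Filter Topology Height

namespace Pool.Agent.H433.GT

variable {K : Type} [Field K] [NumberField K]

theorem lin_ht {ι ι' : Type} [Fintype ι] [Fintype ι'] [DecidableEq ι]
    (f : (ι → K) →ₗ[K] (ι' → K)) :
    ∃ C : ℝ, 0 ≤ C ∧ ∀ x, logHeight (f x) ≤ C + logHeight x := by
  set A : ι' × ι → K := fun p => f (fun j => if p.2 = j then 1 else 0) p.1 with hA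
  refine ⟨totalWeight K * Real.log (Nat.card ι) + logHeight A, ?_, fun x => ?_⟩
  · have h1 : 0 ≤ logHeight A := logHeight_nonneg _
    have h2 : 0 ≤ Real.log (Nat.card ι) := Real.log_natCast_nonneg _
    positivity
  · have h := logHeight_linearMap_apply_le A x
    have h2 : f x = fun j => ∑ i, A (j, i) * x i := by
      rw [LinearMap.pi_apply_eq_sum_univ f x]
      funext j
      rw [Finset.sum_apply]
      refine sum_congr rfl fun i _ => ?_
      rw [Pi.smul_apply, smul_eq_mul, mul_comm]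
    rw [h2]
    exact h

theorem inj_ht {ι ι' : Type} [Fintype ι] [Fintype ι'] [DecidableEq ι'] 
    (f : (ι → K) →ₗ[K] (ι' → K)) (hf : ∀ x, f x = 0 → x = 0) :
    ∃ C : ℝ, 0 ≤ C ∧ ∀ x, logHeight x ≤ C + logHeight (f x) := by
  obtain ⟨g, hg⟩ := f.exists_leftInverse_of_injective (LinearMap.ker_eq_bot'.2 hf)
  obtain ⟨C, hC, h⟩ := lin_ht g
  refine ⟨C, hC, fun x => ?_⟩
  have h1 := h (f x)
  have h2 : g (f x) = x := by
    have := LinearMap.congr_fun hg x
    simpa using this
  rwa [h2] at h1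

/-- the sixteen linear forms -/
def llmap (a : Fin 5 → K) : (Fin 4 → K) →ₗ[K] (Fin 10 ⊕ Fin 6 → K) where
  toFun y := Sum.elim (Lmap a y) (umap a y)
  map_add' x y := by
    funext s
    rcases s with s | s <;> simp
  map_smul' c y := by
    funext s
    rcases s with s | s <;> simp

theorem al_up (a : Fin 5 → K) : ∃ C : ℝ, 0 ≤ C ∧ ∀ x,
    logHeight (al a x) ≤ 2 * logHeight x + C := by
  obtain ⟨C, hC, h⟩ := lin_ht (llmap a)
  refine ⟨logHeight (Sum.elim (W a) (V a)) + 2 * C, ?_, fun x => ?_⟩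
  · have := logHeight_nonneg (Sum.elim (W a) (V a))
    linarith
  · have h1 : al a x = Sum.elim (W a) (V a) * (llmap a x) ^ 2 := by
      funext j
      rcases j with j | j <;> rfl
    have h2 := logHeight_mul_le (Sum.elim (W a) (V a)) ((llmap a x) ^ 2)
    have h3 := logHeight_pow (llmap a x) 2
    have h4 := h x
    rw [h1]
    push_cast at h3
    linarith

theorem al_low {a : Fin 5 → K} (ha : Function.Injective a) : ∃ C : ℝ, 0 ≤ C ∧ ∀ x,
    2 * logHeight x ≤ logHeight (al a x) + C := by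
  obtain ⟨C, hC, h⟩ := inj_ht (Lmap a) fun x hx => L_inj ha fun s => congrFun hx s
  refine ⟨logHeight (W a)⁻¹ + 2 * C, ?_, fun x => ?_⟩
  · have := logHeight_nonneg (W a)⁻¹
    linarith
  · have h1 : (Lmap a x) ^ 2 = (W a)⁻¹ * (al a x ∘ Sum.inl) := by
      funext s
      have hw := W_ne ha s
      show (L a s x) ^ 2 = (W a s)⁻¹ * (W a s * L a s x ^ 2)
      field_simp
    have h2 := logHeight_mul_le (W a)⁻¹ (al a x ∘ Sum.inl)
    have h3 := logHeight_pow (Lmap a x) 2
    have h4 := h x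
    have h5 := logHeight_comp_le (Sum.inl : Fin 10 → Fin 10 ⊕ Fin 6) (al a x)
    rw [h1] at h3
    push_cast at h3
    linarith

theorem dbl_low (K : Type) [Field K] [NumberField K] : ∃ C : ℝ, 0 ≤ C ∧
    ∀ (a : Fin 5 → K) (x y : Fin 4 → K) (t : K), t ≠ 0 → (∀ s, L a s y = t * Q a s x ^ 2) →
      4 * logHeight (al a x) ≤ logHeight (al a y) + 3 * logHeight (W a) + 3 * C := by
  set M : (Fin 10 ⊕ Fin 6) × Fin 10 → K := fun p => (E p.1 p.2 : K) with hM
  set A : ℝ := totalWeight K * Real.log (Nat.card (Fin 10)) + logHeight M with hA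
  have hA0 : 0 ≤ A := by
    have h1 : 0 ≤ logHeight M := logHeight_nonneg _
    have h2 : 0 ≤ Real.log (Nat.card (Fin 10)) := Real.log_natCast_nonneg _
    positivity
  refine ⟨2 * A, by linarith, fun a x y t ht h => ?_⟩
  set q : Fin 10 → K := fun s => W a s * Q a s x with hq
  have h1 : logHeight (al a x) ≤ A + logHeight q := by
    have h2 := logHeight_linearMap_apply_le M q
    have h3 : (fun j => ∑ i, M (j, i) * q i) = (4 : K) • al a x := by
      funext j
      rw [Pi.smul_apply, smul_eq_mul, al_eq]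
    rw [h3, logHeight_smul_eq_logHeight _ (by norm_num)] at h2
    linarith
  have h4 : t ^ 2 • q ^ 4 = W a ^ 3 * (al a y ∘ Sum.inl) := by
    funext s
    show t ^ 2 * (W a s * Q a s x) ^ 4 = W a s ^ 3 * (W a s * L a s y ^ 2)
    rw [h s]
    ring
  have h5 := logHeight_pow q 4
  have h6 := logHeight_smul_eq_logHeight (q ^ 4) (pow_ne_zero 2 ht)
  have h7 := logHeight_mul_le (W a ^ 3) (al a y ∘ Sum.inl)
  have h8 := logHeight_pow (W a) 3
  have h9 := logHeight_comp_le (Sum.inl : Fin 10 → Fin 10 ⊕ Fin 6) (al a y)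
  rw [h4] at h6
  push_cast at h5 h8
  linarith

theorem dbl_up {a : Fin 5 → K} (ha : Function.Injective a) : ∃ C : ℝ, 0 ≤ C ∧
    ∀ (x y : Fin 4 → K) (t : K), t ≠ 0 → (∀ s, L a s y = t * Q a s x ^ 2) →
      logHeight (al a y) ≤ 4 * logHeight (al a x) + C := by
  obtain ⟨C₁, hC₁, h1⟩ := al_up a
  obtain ⟨C₂, hC₂, h2⟩ := inj_ht (Lmap a) fun x hx => L_inj ha fun s => congrFun hx s
  set M : Fin 10 × (Fin 10 ⊕ Fin 6) → K := fun p => (E p.2 p.1 : K) with hM
  set A : ℝ := totalWeight K * Real.log (Nat.card (Fin 10 ⊕ Fin 6)) + logHeight M with hA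
  have hA0 : 0 ≤ A := by
    have h1 : 0 ≤ logHeight M := logHeight_nonneg _
    have h2 : 0 ≤ Real.log (Nat.card (Fin 10 ⊕ Fin 6)) := Real.log_natCast_nonneg _
    positivity
  set w : Fin 10 → K := fun s => 4 * (16 * W a s)⁻¹ with hw
  have hw0 := logHeight_nonneg w
  refine ⟨C₁ + 2 * C₂ + 4 * (A + logHeight w), by positivity, fun x y t ht h => ?_⟩
  have h3 : logHeight (Lmap a y) = 2 * logHeight (fun s => Q a s x) := by
    have h4 : Lmap a y = t • (fun s => Q a s x) ^ 2 := by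
      funext s
      exact h s
    rw [h4, logHeight_smul_eq_logHeight _ ht, logHeight_pow]
    norm_num
  have h5 : (fun s => Q a s x) = w * fun s => ∑ j, M (s, j) * al a x j := by
    funext s
    have h6 := Q_eq a x s
    have h7 := W_ne ha s
    have h8 : w s * (16 * W a s) = 4 := by
      rw [hw]
      field_simp
    show Q a s x = w s * ∑ j, (E j s : K) * al a x j
    have h9 : (16 * W a s) ≠ 0 := mul_ne_zero (by norm_num) h7
    refine mul_left_cancel₀ h9 ?_
    linear_combination -h6 - (∑ j, (E j s : K) * al a x j) * h8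
  have h10 := logHeight_mul_le w fun s => ∑ j, M (s, j) * al a x j
  have h11 := logHeight_linearMap_apply_le M (al a x)
  rw [← h5] at h10
  have h12 := h1 y
  have h13 := h2 y
  linarith

/-- a lemma on sequences -/
theorem seq_lim {A h : ℕ → ℝ} {E₁ E₂ E₃ : ℝ} (hE₁ : 0 ≤ E₁) (hE₂ : 0 ≤ E₂)
    (h1 : ∀ n, 4 * A n ≤ A (n + 1) + 3 * E₁) (h2 : ∀ n, A (n + 1) ≤ 4 * A n + E₂)
    (h3 : ∀ n, |A n - 2 * h n| ≤ E₃) :
    ∃ l, Tendsto (fun n => h n / 4 ^ n) atTop (𝓝 l) ∧ A 1 - E₁ ≤ 8 * l := by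
  set a : ℕ → ℝ := fun n => A n / 4 ^ n with ha
  have h4 (n : ℕ) : dist (a n) (a (n + 1)) ≤ (3 * E₁ + E₂) / 4 * (1 / 4) ^ n := by
    have e1 := h1 n
    have e2 := h2 n
    have h6 : (0 : ℝ) < 4 ^ n := by positivity
    have h5 : a n - a (n + 1) = (4 * A n - A (n + 1)) / (4 * 4 ^ n) := by
      simp only [ha]
      rw [pow_succ]
      field_simp
    have h7 : (3 * E₁ + E₂) / 4 * (1 / 4) ^ n = (3 * E₁ + E₂) / (4 * 4 ^ n) := by
      rw [one_div, inv_pow]
      field_simp
    rw [Real.dist_eq, h5, h7, abs_div, abs_of_pos (show (0:ℝ) < 4 * 4 ^ n by positivity)]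
    gcongr
    rw [abs_le]
    constructor <;> linarith
  have hcau : CauchySeq a := cauchySeq_of_le_geometric (1 / 4) ((3 * E₁ + E₂) / 4)
    (by norm_num) h4
  obtain ⟨l, hl⟩ := cauchySeq_tendsto_of_complete hcau
  have hp : Tendsto (fun n : ℕ => ((4 : ℝ) ^ n)⁻¹) atTop (𝓝 0) := by
    have := tendsto_pow_atTop_nhds_zero_of_lt_one (show (0:ℝ) ≤ 1 / 4 by norm_num)
      (show (1 / 4 : ℝ) < 1 by norm_num)
    simpa using this
  have hb : Tendsto (fun n => (A n - 2 * h n) / 4 ^ n) atTop (𝓝 0) := by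
    refine squeeze_zero_norm (fun n => ?_) (by simpa using hp.const_mul E₃)
    rw [norm_div, Real.norm_eq_abs, Real.norm_of_nonneg (by positivity), div_eq_mul_inv]
    exact mul_le_mul_of_nonneg_right (h3 n) (by positivity)
  have hh : Tendsto (fun n => h n / 4 ^ n) atTop (𝓝 (l / 2)) := by
    have h5 := (hl.sub hb).div_const 2
    rw [sub_zero] at h5
    refine h5.congr fun n => ?_
    simp only [ha]
    ring
  refine ⟨l / 2, hh, ?_⟩
  have h8 (n : ℕ) : 4 ^ n * (A 1 - E₁) ≤ A (n + 1) - E₁ := by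
    induction n with
    | zero => simp
    | succ n ih =>
      have e1 := h1 (n + 1)
      rw [pow_succ]
      nlinarith
  have h9 : Tendsto (fun n => 4 * a (n + 1)) atTop (𝓝 (4 * l)) :=
    ((tendsto_add_atTop_iff_nat 1).2 hl).const_mul 4
  have h10 : A 1 - E₁ ≤ 4 * l := by
    refine ge_of_tendsto' h9 fun n => ?_
    have h10 := h8 n
    have h11 : 4 * a (n + 1) = A (n + 1) / 4 ^ n := by
      simp only [ha]
      rw [pow_succ]
      field_simp
    rw [h11, le_div_iff₀ (by positivity)]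
    linarith
  linarith

/-- The limit exists, and the canonical height is bounded from below. -/
theorem hhat_spec (K : Type) [Field K] [NumberField K] : ∃ C : ℝ, 0 ≤ C ∧
    ∀ a : Fin 5 → K, Function.Injective a → ∀ X : ℕ → Fin 4 → K, Orbit a X →
      Tendsto (fun n : ℕ => logHeight (X n) / 4 ^ n) atTop (𝓝 (hhat X)) ∧
      logHeight (al a (X 1)) - logHeight (W a) - C ≤ 8 * hhat X := by
  obtain ⟨C, hC, h⟩ := dbl_low K
  refine ⟨C, hC, fun a ha X hX => ?_⟩
  obtain ⟨D, hD, hup⟩ := dbl_up ha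
  obtain ⟨C₁, hC₁, h1⟩ := al_up a
  obtain ⟨C₂, hC₂, h2⟩ := al_low ha
  have hW := logHeight_nonneg (W a)
  have g1 (n : ℕ) : 4 * logHeight (al a (X n)) ≤
      logHeight (al a (X (n + 1))) + 3 * (logHeight (W a) + C) := by
    obtain ⟨t, ht, hs⟩ := hX.2 n
    have := h a (X n) (X (n + 1)) t ht hs
    linarith
  have g2 (n : ℕ) : logHeight (al a (X (n + 1))) ≤ 4 * logHeight (al a (X n)) + D := by
    obtain ⟨t, ht, hs⟩ := hX.2 n
    exact hup (X n) (X (n + 1)) t ht hs
  have g3 (n : ℕ) : |logHeight (al a (X n)) - 2 * logHeight (X n)| ≤ C₁ + C₂ := by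
    rw [abs_le]
    have e1 := h1 (X n)
    have e2 := h2 (X n)
    constructor <;> linarith
  obtain ⟨l, hl, hA⟩ := seq_lim (A := fun n => logHeight (al a (X n)))
    (h := fun n => logHeight (X n)) (by linarith) hD g1 g2 g3
  have hlim : hhat X = l := hl.limUnder_eq
  rw [hlim]
  exact ⟨hl, by linarith⟩

end Pool.Agent.H433.GT
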