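import Pool.Agent.H433.GT.Def

/-!
The linear forms at the double of a point, at a simple place.
-/

set_option autoImplicit false

open Finset

namespace Pool.Agent.H433.GT

variable {K : Type} [Field K] {Γ : Type*} [LinearOrderedCommGroupWithZero Γ]
  {w : Valuation K Γ}

theorem lt_of_one_mul {z x : K} {r : Γ} (hz : w z = 1) (h : w (z * x) < r) : w x < r := by
  rwa [map_mul, hz, one_mul] at h

theorem sub_lt' {x y : K} {r : Γ} (hx : w x < r) (hy : w y < r) : w (x - y) < r :=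
  (w.map_sub x y).trans_lt (max_lt hx hy)

theorem mul_lt' {z x : K} {r : Γ} (hz : w z ≤ 1) (hx : w x < r) : w (z * x) < r := by
  rw [map_mul]
  exact (mul_le_of_le_one_left' hz).trans_lt hx

theorem mul_le' {z x : K} {r : Γ} (hz : w z ≤ 1) (hx : w x ≤ r) : w (z * x) ≤ r := by
  rw [map_mul]
  exact (mul_le_of_le_one_left' hz).trans hx

theorem le_mul1 {z x : K} (hz : w z ≤ 1) (hx : w x ≤ 1) : w (z * x) ≤ 1 := mul_le' hz hx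

theorem le_add1 {z x : K} (hz : w z ≤ 1) (hx : w x ≤ 1) : w (z + x) ≤ 1 :=
  w.map_add_le hz hx

theorem le_sub1 {z x : K} (hz : w z ≤ 1) (hx : w x ≤ 1) : w (z - x) ≤ 1 :=
  w.map_sub_le hz hx

section

variable {A B C₁ C₂ C₃ : K} {y : Fin 4 → K} {r : Γ}

theorem lf_le (hA : w A ≤ 1) (hB : w B ≤ 1) (h1 : w C₁ ≤ 1) (h2 : w C₂ ≤ 1) (h3 : w C₃ ≤ 1)
    (hy : ∀ b, w (y b) ≤ r) : w (lf A B C₁ C₂ C₃ y) ≤ r := by
  unfold lf
  refine w.map_sub_le (w.map_add_le (w.map_sub_le (hy 3) (mul_le' (le_add1 h2 h3) (hy 2)))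
    (mul_le' (le_mul1 h2 h3) (hy 1))) (mul_le' (le_add1 (le_mul1 (le_add1 (le_add1 hA hB) h1)
    (le_mul1 h2 h3)) (le_mul1 (le_mul1 hA hB) h1)) (hy 0))

/-- the coordinate `y 3` -/
theorem y3_lt (hA : w A ≤ 1) (hB : w B ≤ 1) (h1 : w C₁ ≤ 1) (h2 : w C₂ ≤ 1) (h3 : w C₃ ≤ 1)
    (hl : w (lf A B C₁ C₂ C₃ y) < r) (k0 : w (y 0) < r) (k1 : w (y 1) < r) (k2 : w (y 2) < r) :
    w (y 3) < r := by
  have e : y 3 = lf A B C₁ C₂ C₃ y + (C₂ + C₃) * y 2 - C₂ * C₃ * y 1 +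
      ((A + B + C₁) * (C₂ * C₃) + A * B * C₁) * y 0 := by
    unfold lf
    ring
  rw [e]
  refine w.map_add_lt (sub_lt' (w.map_add_lt hl (mul_lt' (le_add1 h2 h3) k2))
    (mul_lt' (le_mul1 h2 h3) k1)) (mul_lt' (le_add1 (le_mul1 (le_add1 (le_add1 hA hB) h1)
    (le_mul1 h2 h3)) (le_mul1 (le_mul1 hA hB) h1)) k0)

/-- Not all the linear forms are small. -/
theorem unit_of (hA : w A ≤ 1) (hB : w B ≤ 1) (h1 : w C₁ ≤ 1) (h2 : w C₂ ≤ 1) (h3 : w C₃ ≤ 1)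
    (d12 : w (C₁ - C₂) = 1) (d13 : w (C₁ - C₃) = 1) (d23 : w (C₂ - C₃) = 1)
    (dB1 : w (B - C₁) = 1) (dA2 : w (A - C₂) = 1) (dA3 : w (A - C₃) = 1)
    (l12 : w (lf A B C₃ C₁ C₂ y) < r) (l13 : w (lf A B C₂ C₁ C₃ y) < r)
    (l23 : w (lf A B C₁ C₂ C₃ y) < r) (lAB : w (lf C₁ C₂ C₃ A B y) < r)
    (lA1 : w (lf B C₂ C₃ A C₁ y) < r) (b : Fin 4) : w (y b) < r := by
  have e1 : w (-y 2 + C₁ * y 1 - ((A + B) * C₁ - A * B) * y 0) < r := by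
    refine lt_of_one_mul d23 ?_
    have := sub_lt' l12 l13
    rwa [show (C₂ - C₃) * (-y 2 + C₁ * y 1 - ((A + B) * C₁ - A * B) * y 0) =
      lf A B C₃ C₁ C₂ y - lf A B C₂ C₁ C₃ y by unfold lf; ring]
  have e2 : w (-y 2 + C₂ * y 1 - ((A + B) * C₂ - A * B) * y 0) < r := by
    refine lt_of_one_mul d13 ?_
    have := sub_lt' l12 l23
    rwa [show (C₁ - C₃) * (-y 2 + C₂ * y 1 - ((A + B) * C₂ - A * B) * y 0) =
      lf A B C₃ C₁ C₂ y - lf A B C₁ C₂ C₃ y by unfold lf; ring]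
  have e3 : w (y 1 - (A + B) * y 0) < r := by
    refine lt_of_one_mul d12 ?_
    have := sub_lt' e1 e2
    rwa [show (C₁ - C₂) * (y 1 - (A + B) * y 0) =
      (-y 2 + C₁ * y 1 - ((A + B) * C₁ - A * B) * y 0) -
        (-y 2 + C₂ * y 1 - ((A + B) * C₂ - A * B) * y 0) by ring]
  have e4 : w (y 2 - A * B * y 0) < r := by
    have := sub_lt' (mul_lt' h1 e3) e1
    rwa [show C₁ * (y 1 - (A + B) * y 0) -
      (-y 2 + C₁ * y 1 - ((A + B) * C₁ - A * B) * y 0) = y 2 - A * B * y 0 by ring] at this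
  have e5 : w (-y 2 + A * y 1 - (A * (C₂ + C₃) - C₂ * C₃) * y 0) < r := by
    refine lt_of_one_mul dB1 ?_
    have := sub_lt' lAB lA1
    rwa [show (B - C₁) * (-y 2 + A * y 1 - (A * (C₂ + C₃) - C₂ * C₃) * y 0) =
      lf C₁ C₂ C₃ A B y - lf B C₂ C₃ A C₁ y by unfold lf; ring]
  have k0 : w (y 0) < r := by
    refine lt_of_one_mul dA3 (lt_of_one_mul dA2 ?_)
    have := w.map_add_lt e5 (sub_lt' e4 (mul_lt' hA e3))
    rwa [show (-y 2 + A * y 1 - (A * (C₂ + C₃) - C₂ * C₃) * y 0) +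
      ((y 2 - A * B * y 0) - A * (y 1 - (A + B) * y 0)) = (A - C₂) * ((A - C₃) * y 0) by
        ring] at this
  have k1 : w (y 1) < r := by
    have := w.map_add_lt e3 (mul_lt' (le_add1 hA hB) k0)
    rwa [sub_add_cancel] at this
  have k2 : w (y 2) < r := by
    have := w.map_add_lt e4 (mul_lt' (le_mul1 hA hB) k0)
    rwa [sub_add_cancel] at this
  have k3 := y3_lt hA hB h3 h1 h2 l12 k0 k1 k2
  fin_cases b
  · exact k0
  · exact k1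
  · exact k2
  · exact k3

/-- The forms which separate two points. -/
theorem sep_of (hA : w A ≤ 1) (hB : w B ≤ 1) (h1 : w C₁ ≤ 1) (h2 : w C₂ ≤ 1) (h3 : w C₃ ≤ 1)
    (w2 : w 2 = 1) (d12 : w (C₁ - C₂) = 1) (d13 : w (C₁ - C₃) = 1) (d23 : w (C₂ - C₃) = 1)
    (dAB : w (A - B) ≠ 0)
    (lA1 : w (lf B C₂ C₃ A C₁ y) < w (A - B) * r) (lB1 : w (lf A C₂ C₃ B C₁ y) < w (A - B) * r)
    (lA2 : w (lf B C₁ C₃ A C₂ y) < w (A - B) * r) (lB2 : w (lf A C₁ C₃ B C₂ y) < w (A - B) * r)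
    (lA3 : w (lf B C₁ C₂ A C₃ y) < w (A - B) * r) (lB3 : w (lf A C₁ C₂ B C₃ y) < w (A - B) * r)
    (b : Fin 4) : w (y b) < r := by
  have hpos : 0 < w (A - B) := zero_lt_iff.2 dAB
  have key {z : K} (h : w ((A - B) * z) < w (A - B) * r) : w z < r := by
    rw [map_mul] at h
    exact lt_of_mul_lt_mul_left' h
  have e1 : w (-y 2 + C₁ * y 1 - ((C₂ + C₃) * C₁ - C₂ * C₃) * y 0) < r := by
    refine key ?_
    have := sub_lt' lA1 lB1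
    rwa [show (A - B) * (-y 2 + C₁ * y 1 - ((C₂ + C₃) * C₁ - C₂ * C₃) * y 0) =
      lf B C₂ C₃ A C₁ y - lf A C₂ C₃ B C₁ y by unfold lf; ring]
  have e2 : w (-y 2 + C₂ * y 1 - ((C₁ + C₃) * C₂ - C₁ * C₃) * y 0) < r := by
    refine key ?_
    have := sub_lt' lA2 lB2
    rwa [show (A - B) * (-y 2 + C₂ * y 1 - ((C₁ + C₃) * C₂ - C₁ * C₃) * y 0) =
      lf B C₁ C₃ A C₂ y - lf A C₁ C₃ B C₂ y by unfold lf; ring]
  have e3 : w (-y 2 + C₃ * y 1 - ((C₁ + C₂) * C₃ - C₁ * C₂) * y 0) < r := by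
    refine key ?_
    have := sub_lt' lA3 lB3
    rwa [show (A - B) * (-y 2 + C₃ * y 1 - ((C₁ + C₂) * C₃ - C₁ * C₂) * y 0) =
      lf B C₁ C₂ A C₃ y - lf A C₁ C₂ B C₃ y by unfold lf; ring]
  have f1 : w (y 1 - 2 * C₃ * y 0) < r := by
    refine lt_of_one_mul d12 ?_
    have := sub_lt' e1 e2
    rwa [show (C₁ - C₂) * (y 1 - 2 * C₃ * y 0) =
      (-y 2 + C₁ * y 1 - ((C₂ + C₃) * C₁ - C₂ * C₃) * y 0) -
      (-y 2 + C₂ * y 1 - ((C₁ + C₃) * C₂ - C₁ * C₃) * y 0) by ring]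
  have f2 : w (y 1 - 2 * C₂ * y 0) < r := by
    refine lt_of_one_mul d13 ?_
    have := sub_lt' e1 e3
    rwa [show (C₁ - C₃) * (y 1 - 2 * C₂ * y 0) =
      (-y 2 + C₁ * y 1 - ((C₂ + C₃) * C₁ - C₂ * C₃) * y 0) -
      (-y 2 + C₃ * y 1 - ((C₁ + C₂) * C₃ - C₁ * C₂) * y 0) by ring]
  have k0 : w (y 0) < r := by
    refine lt_of_one_mul d23 (lt_of_one_mul w2 ?_)
    have := sub_lt' f1 f2
    rwa [show (y 1 - 2 * C₃ * y 0) - (y 1 - 2 * C₂ * y 0) = 2 * ((C₂ - C₃) * y 0) by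
      ring] at this
  have k1 : w (y 1) < r := by
    have := w.map_add_lt f1 (mul_lt' (le_mul1 w2.le h3) k0)
    rwa [sub_add_cancel] at this
  have k2 : w (y 2) < r := by
    have := sub_lt' (sub_lt' (mul_lt' h1 k1)
      (mul_lt' (le_sub1 (le_mul1 (le_add1 h2 h3) h1) (le_mul1 h2 h3)) k0)) e1
    rwa [show C₁ * y 1 - ((C₂ + C₃) * C₁ - C₂ * C₃) * y 0 -
      (-y 2 + C₁ * y 1 - ((C₂ + C₃) * C₁ - C₂ * C₃) * y 0) = y 2 by ring] at this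
  have hAB : w (A - B) ≤ 1 := le_sub1 hA hB
  have k3 := y3_lt hB h2 h3 hA h1 (lA1.trans_le (mul_le_of_le_one_left' hAB)) k0 k1 k2
  fin_cases b
  · exact k0
  · exact k1
  · exact k2
  · exact k3

/-- `z` is `t` times a square -/
def Sq (t z : K) : Prop := ∃ q, z = t * q ^ 2

theorem sq_lt {t z z₀ : K} {p : Γ} (hp1 : p < 1) (hd : ∀ x : K, w x < 1 → w x ≤ p)
    (hp0 : p ≠ 0) (hr : r ≠ 0) (hz : Sq t z) (hz₀ : Sq t z₀) (h : w z < r) (h₀ : w z₀ = r) :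
    w z < p * r := by
  obtain ⟨q, rfl⟩ := hz
  obtain ⟨q₀, rfl⟩ := hz₀
  have hn : w (t * q₀ ^ 2) ≠ 0 := by rwa [h₀]
  have hn' : t * q₀ ^ 2 ≠ 0 := by rwa [Ne, map_eq_zero] at hn
  have hq₀ : q₀ ≠ 0 := fun h => hn' (by rw [h]; ring)
  have e1 : t * q ^ 2 = (q / q₀) ^ 2 * (t * q₀ ^ 2) := by
    field_simp
  have h1 : w (q / q₀) < 1 := by
    by_contra hcon
    rw [not_lt] at hcon
    rw [e1, map_mul, h₀, map_pow] at h
    have h2 : 1 ≤ w (q / q₀) ^ 2 := one_le_pow_of_one_le' hcon 2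
    exact absurd h (not_lt.2 (le_mul_of_one_le_left' h2))
  have h2 := hd _ h1
  rw [e1, map_mul, h₀, map_pow]
  have h3 : w (q / q₀) ^ 2 ≤ p * p := by
    rw [pow_two]
    exact mul_le_mul' h2 h2
  have h4 : p * p < p := by
    have : p * p < p * 1 := by
      exact (mul_lt_mul_iff_of_pos_left (zero_lt_iff.2 hp0)).2 hp1
    rwa [mul_one] at this
  exact (mul_lt_mul_iff_of_pos_right (zero_lt_iff.2 hr)).2 (h3.trans_lt h4)

/-- At a simple place one of the forms which separate the two points is not smaller than the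
coordinates. -/
theorem simple_of (hA : w A ≤ 1) (hB : w B ≤ 1) (h1 : w C₁ ≤ 1) (h2 : w C₂ ≤ 1) (h3 : w C₃ ≤ 1)
    (w2 : w 2 = 1) (d12 : w (C₁ - C₂) = 1) (d13 : w (C₁ - C₃) = 1) (d23 : w (C₂ - C₃) = 1)
    (dB1 : w (B - C₁) = 1) (dA2 : w (A - C₂) = 1) (dA3 : w (A - C₃) = 1)
    (dAB : w (A - B) ≠ 0) (dAB1 : w (A - B) < 1) (hd : ∀ x : K, w x < 1 → w x ≤ w (A - B))
    {t : K} (hr : r ≠ 0) (hy : ∀ b, w (y b) ≤ r) (hyr : ∃ b, r ≤ w (y b))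
    (s12 : Sq t (lf A B C₃ C₁ C₂ y)) (s13 : Sq t (lf A B C₂ C₁ C₃ y))
    (s23 : Sq t (lf A B C₁ C₂ C₃ y)) (sAB : Sq t (lf C₁ C₂ C₃ A B y))
    (sA1 : Sq t (lf B C₂ C₃ A C₁ y)) (sB1 : Sq t (lf A C₂ C₃ B C₁ y))
    (sA2 : Sq t (lf B C₁ C₃ A C₂ y)) (sB2 : Sq t (lf A C₁ C₃ B C₂ y))
    (sA3 : Sq t (lf B C₁ C₂ A C₃ y)) (sB3 : Sq t (lf A C₁ C₂ B C₃ y))
    (lA1 : w (lf B C₂ C₃ A C₁ y) < r) (lB1 : w (lf A C₂ C₃ B C₁ y) < r)
    (lA2 : w (lf B C₁ C₃ A C₂ y) < r) (lB2 : w (lf A C₁ C₃ B C₂ y) < r)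
    (lA3 : w (lf B C₁ C₂ A C₃ y) < r) (lB3 : w (lf A C₁ C₂ B C₃ y) < r) : False := by
  obtain ⟨b, hb⟩ := hyr
  obtain ⟨z₀, hs₀, hz₀⟩ : ∃ z₀, Sq t z₀ ∧ w z₀ = r := by
    by_contra hcon
    push Not at hcon
    have e12 := lt_of_le_of_ne (lf_le hA hB h3 h1 h2 hy) (hcon _ s12)
    have e13 := lt_of_le_of_ne (lf_le hA hB h2 h1 h3 hy) (hcon _ s13)
    have e23 := lt_of_le_of_ne (lf_le hA hB h1 h2 h3 hy) (hcon _ s23)
    have eAB := lt_of_le_of_ne (lf_le h1 h2 h3 hA hB hy) (hcon _ sAB)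
    have := unit_of hA hB h1 h2 h3 d12 d13 d23 dB1 dA2 dA3 e12 e13 e23 eAB lA1 b
    exact absurd hb (not_le.2 this)
  have key {z : K} (hs : Sq t z) (hz : w z < r) : w z < w (A - B) * r :=
    sq_lt dAB1 hd dAB hr hs hs₀ hz hz₀
  have := sep_of hA hB h1 h2 h3 w2 d12 d13 d23 dAB (key sA1 lA1) (key sB1 lB1) (key sA2 lA2)
    (key sB2 lB2) (key sA3 lA3) (key sB3 lB3) b
  exact absurd hb (not_le.2 this)

end

end Pool.Agent.H433.GT
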