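import Pool.Agent.H433.GT.Loc

/-!
The linear forms at the double of a point, at a simple place.
-/

set_option autoImplicit false

open Finset

namespace Pool.Agent.H433.GT

open Pool.Agent.H433.AC

/-- the four pairs in the two parts of the partition -/
def F (s : Fin 10) : Finset (Fin 5 × Fin 5) :=
  {((tr s).1, (tr s).2.1), ((tr s).1, (tr s).2.2), ((tr s).2.1, (tr s).2.2), pr s}

variable {K : Type} [Field K] {Γ : Type*} [LinearOrderedCommGroupWithZero Γ]
  {w : Valuation K Γ}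

theorem sq_cg {x x' t : K} (h : x = x') (hx : Sq t x) : Sq t x' := h ▸ hx

theorem lt_cg {x x' : K} {r : Γ} (h : x = x') (hx : w x < r) : w x' < r := h ▸ hx

theorem sub_cg {x y : K} (h : w (x - y) = 1) : w (y - x) = 1 := by
  rw [← h, ← Valuation.map_neg, neg_sub]

theorem prs_cases {p : Fin 5 × Fin 5} (hp : p ∈ prs 5) : p = (0, 1) ∨ p = (0, 2) ∨ p = (0, 3) ∨
    p = (0, 4) ∨ p = (1, 2) ∨ p = (1, 3) ∨ p = (1, 4) ∨ p = (2, 3) ∨ p = (2, 4) ∨
      p = (3, 4) := by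
  revert p
  decide

/-- At a simple place one of the forms which separate the two points is not smaller than the
coordinates. -/
theorem simple_max {a : Fin 5 → K} {z : Fin 4 → K} {r : Γ} {t : K} (w2 : w 2 = 1)
    (ha : ∀ i, w (a i) ≤ 1) {p : Fin 5 × Fin 5} (hp : p ∈ prs 5)
    (hn : ∀ q ∈ prs 5, q ≠ p → w (a q.1 - a q.2) = 1)
    (hd0 : w (a p.1 - a p.2) ≠ 0) (hd1 : w (a p.1 - a p.2) < 1)
    (hd : ∀ x : K, w x < 1 → w x ≤ w (a p.1 - a p.2)) (hr : r ≠ 0)
    (hy : ∀ b, w (z b) ≤ r) (hyr : ∃ b, r ≤ w (z b)) (hS : ∀ s, Sq t (L a s z))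
    (hl : ∀ s, p ∉ F s → w (L a s z) < r) : False := by
  rcases prs_cases hp with rfl | rfl | rfl | rfl | rfl | rfl | rfl | rfl | rfl | rfl
  · exact simple_of (A := a 0) (B := a 1) (C₁ := a 2) (C₂ := a 3) (C₃ := a 4)
      (ha _) (ha _) (ha _) (ha _) (ha _) w2
      (hn (2, 3) (by decide) (by decide))
      (hn (2, 4) (by decide) (by decide))
      (hn (3, 4) (by decide) (by decide))
      (hn (1, 2) (by decide) (by decide))
      (hn (0, 3) (by decide) (by decide))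
      (hn (0, 4) (by decide) (by decide))
      hd0 hd1 hd hr hy hyr
      (sq_cg (x := lf (a 0) (a 1) (a 4) (a 2) (a 3) z) (by unfold lf; ring) (hS 7))
      (sq_cg (x := lf (a 0) (a 1) (a 3) (a 2) (a 4) z) (by unfold lf; ring) (hS 8))
      (sq_cg (x := lf (a 0) (a 1) (a 2) (a 3) (a 4) z) (by unfold lf; ring) (hS 9))
      (sq_cg (x := lf (a 2) (a 3) (a 4) (a 0) (a 1) z) (by unfold lf; ring) (hS 0))
      (sq_cg (x := lf (a 1) (a 3) (a 4) (a 0) (a 2) z) (by unfold lf; ring) (hS 1))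
      (sq_cg (x := lf (a 0) (a 3) (a 4) (a 1) (a 2) z) (by unfold lf; ring) (hS 4))
      (sq_cg (x := lf (a 1) (a 2) (a 4) (a 0) (a 3) z) (by unfold lf; ring) (hS 2))
      (sq_cg (x := lf (a 0) (a 2) (a 4) (a 1) (a 3) z) (by unfold lf; ring) (hS 5))
      (sq_cg (x := lf (a 1) (a 2) (a 3) (a 0) (a 4) z) (by unfold lf; ring) (hS 3))
      (sq_cg (x := lf (a 0) (a 2) (a 3) (a 1) (a 4) z) (by unfold lf; ring) (hS 6))
      (lt_cg (x := lf (a 1) (a 3) (a 4) (a 0) (a 2) z) (by unfold lf; ring) (hl 1 (by decide)))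
      (lt_cg (x := lf (a 0) (a 3) (a 4) (a 1) (a 2) z) (by unfold lf; ring) (hl 4 (by decide)))
      (lt_cg (x := lf (a 1) (a 2) (a 4) (a 0) (a 3) z) (by unfold lf; ring) (hl 2 (by decide)))
      (lt_cg (x := lf (a 0) (a 2) (a 4) (a 1) (a 3) z) (by unfold lf; ring) (hl 5 (by decide)))
      (lt_cg (x := lf (a 1) (a 2) (a 3) (a 0) (a 4) z) (by unfold lf; ring) (hl 3 (by decide)))
      (lt_cg (x := lf (a 0) (a 2) (a 3) (a 1) (a 4) z) (by unfold lf; ring) (hl 6 (by decide)))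
  · exact simple_of (A := a 0) (B := a 2) (C₁ := a 1) (C₂ := a 3) (C₃ := a 4)
      (ha _) (ha _) (ha _) (ha _) (ha _) w2
      (hn (1, 3) (by decide) (by decide))
      (hn (1, 4) (by decide) (by decide))
      (hn (3, 4) (by decide) (by decide))
      (sub_cg (hn (1, 2) (by decide) (by decide)))
      (hn (0, 3) (by decide) (by decide))
      (hn (0, 4) (by decide) (by decide))
      hd0 hd1 hd hr hy hyr
      (sq_cg (x := lf (a 0) (a 2) (a 4) (a 1) (a 3) z) (by unfold lf; ring) (hS 5))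
      (sq_cg (x := lf (a 0) (a 2) (a 3) (a 1) (a 4) z) (by unfold lf; ring) (hS 6))
      (sq_cg (x := lf (a 0) (a 1) (a 2) (a 3) (a 4) z) (by unfold lf; ring) (hS 9))
      (sq_cg (x := lf (a 1) (a 3) (a 4) (a 0) (a 2) z) (by unfold lf; ring) (hS 1))
      (sq_cg (x := lf (a 2) (a 3) (a 4) (a 0) (a 1) z) (by unfold lf; ring) (hS 0))
      (sq_cg (x := lf (a 0) (a 3) (a 4) (a 1) (a 2) z) (by unfold lf; ring) (hS 4))
      (sq_cg (x := lf (a 1) (a 2) (a 4) (a 0) (a 3) z) (by unfold lf; ring) (hS 2))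
      (sq_cg (x := lf (a 0) (a 1) (a 4) (a 2) (a 3) z) (by unfold lf; ring) (hS 7))
      (sq_cg (x := lf (a 1) (a 2) (a 3) (a 0) (a 4) z) (by unfold lf; ring) (hS 3))
      (sq_cg (x := lf (a 0) (a 1) (a 3) (a 2) (a 4) z) (by unfold lf; ring) (hS 8))
      (lt_cg (x := lf (a 2) (a 3) (a 4) (a 0) (a 1) z) (by unfold lf; ring) (hl 0 (by decide)))
      (lt_cg (x := lf (a 0) (a 3) (a 4) (a 1) (a 2) z) (by unfold lf; ring) (hl 4 (by decide)))
      (lt_cg (x := lf (a 1) (a 2) (a 4) (a 0) (a 3) z) (by unfold lf; ring) (hl 2 (by decide)))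
      (lt_cg (x := lf (a 0) (a 1) (a 4) (a 2) (a 3) z) (by unfold lf; ring) (hl 7 (by decide)))
      (lt_cg (x := lf (a 1) (a 2) (a 3) (a 0) (a 4) z) (by unfold lf; ring) (hl 3 (by decide)))
      (lt_cg (x := lf (a 0) (a 1) (a 3) (a 2) (a 4) z) (by unfold lf; ring) (hl 8 (by decide)))
  · exact simple_of (A := a 0) (B := a 3) (C₁ := a 1) (C₂ := a 2) (C₃ := a 4)
      (ha _) (ha _) (ha _) (ha _) (ha _) w2
      (hn (1, 2) (by decide) (by decide))
      (hn (1, 4) (by decide) (by decide))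
      (hn (2, 4) (by decide) (by decide))
      (sub_cg (hn (1, 3) (by decide) (by decide)))
      (hn (0, 2) (by decide) (by decide))
      (hn (0, 4) (by decide) (by decide))
      hd0 hd1 hd hr hy hyr
      (sq_cg (x := lf (a 0) (a 3) (a 4) (a 1) (a 2) z) (by unfold lf; ring) (hS 4))
      (sq_cg (x := lf (a 0) (a 2) (a 3) (a 1) (a 4) z) (by unfold lf; ring) (hS 6))
      (sq_cg (x := lf (a 0) (a 1) (a 3) (a 2) (a 4) z) (by unfold lf; ring) (hS 8))
      (sq_cg (x := lf (a 1) (a 2) (a 4) (a 0) (a 3) z) (by unfold lf; ring) (hS 2))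
      (sq_cg (x := lf (a 2) (a 3) (a 4) (a 0) (a 1) z) (by unfold lf; ring) (hS 0))
      (sq_cg (x := lf (a 0) (a 2) (a 4) (a 1) (a 3) z) (by unfold lf; ring) (hS 5))
      (sq_cg (x := lf (a 1) (a 3) (a 4) (a 0) (a 2) z) (by unfold lf; ring) (hS 1))
      (sq_cg (x := lf (a 0) (a 1) (a 4) (a 2) (a 3) z) (by unfold lf; ring) (hS 7))
      (sq_cg (x := lf (a 1) (a 2) (a 3) (a 0) (a 4) z) (by unfold lf; ring) (hS 3))
      (sq_cg (x := lf (a 0) (a 1) (a 2) (a 3) (a 4) z) (by unfold lf; ring) (hS 9))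
      (lt_cg (x := lf (a 2) (a 3) (a 4) (a 0) (a 1) z) (by unfold lf; ring) (hl 0 (by decide)))
      (lt_cg (x := lf (a 0) (a 2) (a 4) (a 1) (a 3) z) (by unfold lf; ring) (hl 5 (by decide)))
      (lt_cg (x := lf (a 1) (a 3) (a 4) (a 0) (a 2) z) (by unfold lf; ring) (hl 1 (by decide)))
      (lt_cg (x := lf (a 0) (a 1) (a 4) (a 2) (a 3) z) (by unfold lf; ring) (hl 7 (by decide)))
      (lt_cg (x := lf (a 1) (a 2) (a 3) (a 0) (a 4) z) (by unfold lf; ring) (hl 3 (by decide)))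
      (lt_cg (x := lf (a 0) (a 1) (a 2) (a 3) (a 4) z) (by unfold lf; ring) (hl 9 (by decide)))
  · exact simple_of (A := a 0) (B := a 4) (C₁ := a 1) (C₂ := a 2) (C₃ := a 3)
      (ha _) (ha _) (ha _) (ha _) (ha _) w2
      (hn (1, 2) (by decide) (by decide))
      (hn (1, 3) (by decide) (by decide))
      (hn (2, 3) (by decide) (by decide))
      (sub_cg (hn (1, 4) (by decide) (by decide)))
      (hn (0, 2) (by decide) (by decide))
      (hn (0, 3) (by decide) (by decide))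
      hd0 hd1 hd hr hy hyr
      (sq_cg (x := lf (a 0) (a 3) (a 4) (a 1) (a 2) z) (by unfold lf; ring) (hS 4))
      (sq_cg (x := lf (a 0) (a 2) (a 4) (a 1) (a 3) z) (by unfold lf; ring) (hS 5))
      (sq_cg (x := lf (a 0) (a 1) (a 4) (a 2) (a 3) z) (by unfold lf; ring) (hS 7))
      (sq_cg (x := lf (a 1) (a 2) (a 3) (a 0) (a 4) z) (by unfold lf; ring) (hS 3))
      (sq_cg (x := lf (a 2) (a 3) (a 4) (a 0) (a 1) z) (by unfold lf; ring) (hS 0))
      (sq_cg (x := lf (a 0) (a 2) (a 3) (a 1) (a 4) z) (by unfold lf; ring) (hS 6))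
      (sq_cg (x := lf (a 1) (a 3) (a 4) (a 0) (a 2) z) (by unfold lf; ring) (hS 1))
      (sq_cg (x := lf (a 0) (a 1) (a 3) (a 2) (a 4) z) (by unfold lf; ring) (hS 8))
      (sq_cg (x := lf (a 1) (a 2) (a 4) (a 0) (a 3) z) (by unfold lf; ring) (hS 2))
      (sq_cg (x := lf (a 0) (a 1) (a 2) (a 3) (a 4) z) (by unfold lf; ring) (hS 9))
      (lt_cg (x := lf (a 2) (a 3) (a 4) (a 0) (a 1) z) (by unfold lf; ring) (hl 0 (by decide)))
      (lt_cg (x := lf (a 0) (a 2) (a 3) (a 1) (a 4) z) (by unfold lf; ring) (hl 6 (by decide)))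
      (lt_cg (x := lf (a 1) (a 3) (a 4) (a 0) (a 2) z) (by unfold lf; ring) (hl 1 (by decide)))
      (lt_cg (x := lf (a 0) (a 1) (a 3) (a 2) (a 4) z) (by unfold lf; ring) (hl 8 (by decide)))
      (lt_cg (x := lf (a 1) (a 2) (a 4) (a 0) (a 3) z) (by unfold lf; ring) (hl 2 (by decide)))
      (lt_cg (x := lf (a 0) (a 1) (a 2) (a 3) (a 4) z) (by unfold lf; ring) (hl 9 (by decide)))
  · exact simple_of (A := a 1) (B := a 2) (C₁ := a 0) (C₂ := a 3) (C₃ := a 4)
      (ha _) (ha _) (ha _) (ha _) (ha _) w2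
      (hn (0, 3) (by decide) (by decide))
      (hn (0, 4) (by decide) (by decide))
      (hn (3, 4) (by decide) (by decide))
      (sub_cg (hn (0, 2) (by decide) (by decide)))
      (hn (1, 3) (by decide) (by decide))
      (hn (1, 4) (by decide) (by decide))
      hd0 hd1 hd hr hy hyr
      (sq_cg (x := lf (a 1) (a 2) (a 4) (a 0) (a 3) z) (by unfold lf; ring) (hS 2))
      (sq_cg (x := lf (a 1) (a 2) (a 3) (a 0) (a 4) z) (by unfold lf; ring) (hS 3))
      (sq_cg (x := lf (a 0) (a 1) (a 2) (a 3) (a 4) z) (by unfold lf; ring) (hS 9))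
      (sq_cg (x := lf (a 0) (a 3) (a 4) (a 1) (a 2) z) (by unfold lf; ring) (hS 4))
      (sq_cg (x := lf (a 2) (a 3) (a 4) (a 0) (a 1) z) (by unfold lf; ring) (hS 0))
      (sq_cg (x := lf (a 1) (a 3) (a 4) (a 0) (a 2) z) (by unfold lf; ring) (hS 1))
      (sq_cg (x := lf (a 0) (a 2) (a 4) (a 1) (a 3) z) (by unfold lf; ring) (hS 5))
      (sq_cg (x := lf (a 0) (a 1) (a 4) (a 2) (a 3) z) (by unfold lf; ring) (hS 7))
      (sq_cg (x := lf (a 0) (a 2) (a 3) (a 1) (a 4) z) (by unfold lf; ring) (hS 6))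
      (sq_cg (x := lf (a 0) (a 1) (a 3) (a 2) (a 4) z) (by unfold lf; ring) (hS 8))
      (lt_cg (x := lf (a 2) (a 3) (a 4) (a 0) (a 1) z) (by unfold lf; ring) (hl 0 (by decide)))
      (lt_cg (x := lf (a 1) (a 3) (a 4) (a 0) (a 2) z) (by unfold lf; ring) (hl 1 (by decide)))
      (lt_cg (x := lf (a 0) (a 2) (a 4) (a 1) (a 3) z) (by unfold lf; ring) (hl 5 (by decide)))
      (lt_cg (x := lf (a 0) (a 1) (a 4) (a 2) (a 3) z) (by unfold lf; ring) (hl 7 (by decide)))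
      (lt_cg (x := lf (a 0) (a 2) (a 3) (a 1) (a 4) z) (by unfold lf; ring) (hl 6 (by decide)))
      (lt_cg (x := lf (a 0) (a 1) (a 3) (a 2) (a 4) z) (by unfold lf; ring) (hl 8 (by decide)))
  · exact simple_of (A := a 1) (B := a 3) (C₁ := a 0) (C₂ := a 2) (C₃ := a 4)
      (ha _) (ha _) (ha _) (ha _) (ha _) w2
      (hn (0, 2) (by decide) (by decide))
      (hn (0, 4) (by decide) (by decide))
      (hn (2, 4) (by decide) (by decide))
      (sub_cg (hn (0, 3) (by decide) (by decide)))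
      (hn (1, 2) (by decide) (by decide))
      (hn (1, 4) (by decide) (by decide))
      hd0 hd1 hd hr hy hyr
      (sq_cg (x := lf (a 1) (a 3) (a 4) (a 0) (a 2) z) (by unfold lf; ring) (hS 1))
      (sq_cg (x := lf (a 1) (a 2) (a 3) (a 0) (a 4) z) (by unfold lf; ring) (hS 3))
      (sq_cg (x := lf (a 0) (a 1) (a 3) (a 2) (a 4) z) (by unfold lf; ring) (hS 8))
      (sq_cg (x := lf (a 0) (a 2) (a 4) (a 1) (a 3) z) (by unfold lf; ring) (hS 5))
      (sq_cg (x := lf (a 2) (a 3) (a 4) (a 0) (a 1) z) (by unfold lf; ring) (hS 0))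
      (sq_cg (x := lf (a 1) (a 2) (a 4) (a 0) (a 3) z) (by unfold lf; ring) (hS 2))
      (sq_cg (x := lf (a 0) (a 3) (a 4) (a 1) (a 2) z) (by unfold lf; ring) (hS 4))
      (sq_cg (x := lf (a 0) (a 1) (a 4) (a 2) (a 3) z) (by unfold lf; ring) (hS 7))
      (sq_cg (x := lf (a 0) (a 2) (a 3) (a 1) (a 4) z) (by unfold lf; ring) (hS 6))
      (sq_cg (x := lf (a 0) (a 1) (a 2) (a 3) (a 4) z) (by unfold lf; ring) (hS 9))
      (lt_cg (x := lf (a 2) (a 3) (a 4) (a 0) (a 1) z) (by unfold lf; ring) (hl 0 (by decide)))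
      (lt_cg (x := lf (a 1) (a 2) (a 4) (a 0) (a 3) z) (by unfold lf; ring) (hl 2 (by decide)))
      (lt_cg (x := lf (a 0) (a 3) (a 4) (a 1) (a 2) z) (by unfold lf; ring) (hl 4 (by decide)))
      (lt_cg (x := lf (a 0) (a 1) (a 4) (a 2) (a 3) z) (by unfold lf; ring) (hl 7 (by decide)))
      (lt_cg (x := lf (a 0) (a 2) (a 3) (a 1) (a 4) z) (by unfold lf; ring) (hl 6 (by decide)))
      (lt_cg (x := lf (a 0) (a 1) (a 2) (a 3) (a 4) z) (by unfold lf; ring) (hl 9 (by decide)))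
  · exact simple_of (A := a 1) (B := a 4) (C₁ := a 0) (C₂ := a 2) (C₃ := a 3)
      (ha _) (ha _) (ha _) (ha _) (ha _) w2
      (hn (0, 2) (by decide) (by decide))
      (hn (0, 3) (by decide) (by decide))
      (hn (2, 3) (by decide) (by decide))
      (sub_cg (hn (0, 4) (by decide) (by decide)))
      (hn (1, 2) (by decide) (by decide))
      (hn (1, 3) (by decide) (by decide))
      hd0 hd1 hd hr hy hyr
      (sq_cg (x := lf (a 1) (a 3) (a 4) (a 0) (a 2) z) (by unfold lf; ring) (hS 1))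
      (sq_cg (x := lf (a 1) (a 2) (a 4) (a 0) (a 3) z) (by unfold lf; ring) (hS 2))
      (sq_cg (x := lf (a 0) (a 1) (a 4) (a 2) (a 3) z) (by unfold lf; ring) (hS 7))
      (sq_cg (x := lf (a 0) (a 2) (a 3) (a 1) (a 4) z) (by unfold lf; ring) (hS 6))
      (sq_cg (x := lf (a 2) (a 3) (a 4) (a 0) (a 1) z) (by unfold lf; ring) (hS 0))
      (sq_cg (x := lf (a 1) (a 2) (a 3) (a 0) (a 4) z) (by unfold lf; ring) (hS 3))
      (sq_cg (x := lf (a 0) (a 3) (a 4) (a 1) (a 2) z) (by unfold lf; ring) (hS 4))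
      (sq_cg (x := lf (a 0) (a 1) (a 3) (a 2) (a 4) z) (by unfold lf; ring) (hS 8))
      (sq_cg (x := lf (a 0) (a 2) (a 4) (a 1) (a 3) z) (by unfold lf; ring) (hS 5))
      (sq_cg (x := lf (a 0) (a 1) (a 2) (a 3) (a 4) z) (by unfold lf; ring) (hS 9))
      (lt_cg (x := lf (a 2) (a 3) (a 4) (a 0) (a 1) z) (by unfold lf; ring) (hl 0 (by decide)))
      (lt_cg (x := lf (a 1) (a 2) (a 3) (a 0) (a 4) z) (by unfold lf; ring) (hl 3 (by decide)))
      (lt_cg (x := lf (a 0) (a 3) (a 4) (a 1) (a 2) z) (by unfold lf; ring) (hl 4 (by decide)))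
      (lt_cg (x := lf (a 0) (a 1) (a 3) (a 2) (a 4) z) (by unfold lf; ring) (hl 8 (by decide)))
      (lt_cg (x := lf (a 0) (a 2) (a 4) (a 1) (a 3) z) (by unfold lf; ring) (hl 5 (by decide)))
      (lt_cg (x := lf (a 0) (a 1) (a 2) (a 3) (a 4) z) (by unfold lf; ring) (hl 9 (by decide)))
  · exact simple_of (A := a 2) (B := a 3) (C₁ := a 0) (C₂ := a 1) (C₃ := a 4)
      (ha _) (ha _) (ha _) (ha _) (ha _) w2
      (hn (0, 1) (by decide) (by decide))
      (hn (0, 4) (by decide) (by decide))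
      (hn (1, 4) (by decide) (by decide))
      (sub_cg (hn (0, 3) (by decide) (by decide)))
      (sub_cg (hn (1, 2) (by decide) (by decide)))
      (hn (2, 4) (by decide) (by decide))
      hd0 hd1 hd hr hy hyr
      (sq_cg (x := lf (a 2) (a 3) (a 4) (a 0) (a 1) z) (by unfold lf; ring) (hS 0))
      (sq_cg (x := lf (a 1) (a 2) (a 3) (a 0) (a 4) z) (by unfold lf; ring) (hS 3))
      (sq_cg (x := lf (a 0) (a 2) (a 3) (a 1) (a 4) z) (by unfold lf; ring) (hS 6))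
      (sq_cg (x := lf (a 0) (a 1) (a 4) (a 2) (a 3) z) (by unfold lf; ring) (hS 7))
      (sq_cg (x := lf (a 1) (a 3) (a 4) (a 0) (a 2) z) (by unfold lf; ring) (hS 1))
      (sq_cg (x := lf (a 1) (a 2) (a 4) (a 0) (a 3) z) (by unfold lf; ring) (hS 2))
      (sq_cg (x := lf (a 0) (a 3) (a 4) (a 1) (a 2) z) (by unfold lf; ring) (hS 4))
      (sq_cg (x := lf (a 0) (a 2) (a 4) (a 1) (a 3) z) (by unfold lf; ring) (hS 5))
      (sq_cg (x := lf (a 0) (a 1) (a 3) (a 2) (a 4) z) (by unfold lf; ring) (hS 8))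
      (sq_cg (x := lf (a 0) (a 1) (a 2) (a 3) (a 4) z) (by unfold lf; ring) (hS 9))
      (lt_cg (x := lf (a 1) (a 3) (a 4) (a 0) (a 2) z) (by unfold lf; ring) (hl 1 (by decide)))
      (lt_cg (x := lf (a 1) (a 2) (a 4) (a 0) (a 3) z) (by unfold lf; ring) (hl 2 (by decide)))
      (lt_cg (x := lf (a 0) (a 3) (a 4) (a 1) (a 2) z) (by unfold lf; ring) (hl 4 (by decide)))
      (lt_cg (x := lf (a 0) (a 2) (a 4) (a 1) (a 3) z) (by unfold lf; ring) (hl 5 (by decide)))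
      (lt_cg (x := lf (a 0) (a 1) (a 3) (a 2) (a 4) z) (by unfold lf; ring) (hl 8 (by decide)))
      (lt_cg (x := lf (a 0) (a 1) (a 2) (a 3) (a 4) z) (by unfold lf; ring) (hl 9 (by decide)))
  · exact simple_of (A := a 2) (B := a 4) (C₁ := a 0) (C₂ := a 1) (C₃ := a 3)
      (ha _) (ha _) (ha _) (ha _) (ha _) w2
      (hn (0, 1) (by decide) (by decide))
      (hn (0, 3) (by decide) (by decide))
      (hn (1, 3) (by decide) (by decide))
      (sub_cg (hn (0, 4) (by decide) (by decide)))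
      (sub_cg (hn (1, 2) (by decide) (by decide)))
      (hn (2, 3) (by decide) (by decide))
      hd0 hd1 hd hr hy hyr
      (sq_cg (x := lf (a 2) (a 3) (a 4) (a 0) (a 1) z) (by unfold lf; ring) (hS 0))
      (sq_cg (x := lf (a 1) (a 2) (a 4) (a 0) (a 3) z) (by unfold lf; ring) (hS 2))
      (sq_cg (x := lf (a 0) (a 2) (a 4) (a 1) (a 3) z) (by unfold lf; ring) (hS 5))
      (sq_cg (x := lf (a 0) (a 1) (a 3) (a 2) (a 4) z) (by unfold lf; ring) (hS 8))
      (sq_cg (x := lf (a 1) (a 3) (a 4) (a 0) (a 2) z) (by unfold lf; ring) (hS 1))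
      (sq_cg (x := lf (a 1) (a 2) (a 3) (a 0) (a 4) z) (by unfold lf; ring) (hS 3))
      (sq_cg (x := lf (a 0) (a 3) (a 4) (a 1) (a 2) z) (by unfold lf; ring) (hS 4))
      (sq_cg (x := lf (a 0) (a 2) (a 3) (a 1) (a 4) z) (by unfold lf; ring) (hS 6))
      (sq_cg (x := lf (a 0) (a 1) (a 4) (a 2) (a 3) z) (by unfold lf; ring) (hS 7))
      (sq_cg (x := lf (a 0) (a 1) (a 2) (a 3) (a 4) z) (by unfold lf; ring) (hS 9))
      (lt_cg (x := lf (a 1) (a 3) (a 4) (a 0) (a 2) z) (by unfold lf; ring) (hl 1 (by decide)))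
      (lt_cg (x := lf (a 1) (a 2) (a 3) (a 0) (a 4) z) (by unfold lf; ring) (hl 3 (by decide)))
      (lt_cg (x := lf (a 0) (a 3) (a 4) (a 1) (a 2) z) (by unfold lf; ring) (hl 4 (by decide)))
      (lt_cg (x := lf (a 0) (a 2) (a 3) (a 1) (a 4) z) (by unfold lf; ring) (hl 6 (by decide)))
      (lt_cg (x := lf (a 0) (a 1) (a 4) (a 2) (a 3) z) (by unfold lf; ring) (hl 7 (by decide)))
      (lt_cg (x := lf (a 0) (a 1) (a 2) (a 3) (a 4) z) (by unfold lf; ring) (hl 9 (by decide)))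
  · exact simple_of (A := a 3) (B := a 4) (C₁ := a 0) (C₂ := a 1) (C₃ := a 2)
      (ha _) (ha _) (ha _) (ha _) (ha _) w2
      (hn (0, 1) (by decide) (by decide))
      (hn (0, 2) (by decide) (by decide))
      (hn (1, 2) (by decide) (by decide))
      (sub_cg (hn (0, 4) (by decide) (by decide)))
      (sub_cg (hn (1, 3) (by decide) (by decide)))
      (sub_cg (hn (2, 3) (by decide) (by decide)))
      hd0 hd1 hd hr hy hyr
      (sq_cg (x := lf (a 2) (a 3) (a 4) (a 0) (a 1) z) (by unfold lf; ring) (hS 0))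
      (sq_cg (x := lf (a 1) (a 3) (a 4) (a 0) (a 2) z) (by unfold lf; ring) (hS 1))
      (sq_cg (x := lf (a 0) (a 3) (a 4) (a 1) (a 2) z) (by unfold lf; ring) (hS 4))
      (sq_cg (x := lf (a 0) (a 1) (a 2) (a 3) (a 4) z) (by unfold lf; ring) (hS 9))
      (sq_cg (x := lf (a 1) (a 2) (a 4) (a 0) (a 3) z) (by unfold lf; ring) (hS 2))
      (sq_cg (x := lf (a 1) (a 2) (a 3) (a 0) (a 4) z) (by unfold lf; ring) (hS 3))
      (sq_cg (x := lf (a 0) (a 2) (a 4) (a 1) (a 3) z) (by unfold lf; ring) (hS 5))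
      (sq_cg (x := lf (a 0) (a 2) (a 3) (a 1) (a 4) z) (by unfold lf; ring) (hS 6))
      (sq_cg (x := lf (a 0) (a 1) (a 4) (a 2) (a 3) z) (by unfold lf; ring) (hS 7))
      (sq_cg (x := lf (a 0) (a 1) (a 3) (a 2) (a 4) z) (by unfold lf; ring) (hS 8))
      (lt_cg (x := lf (a 1) (a 2) (a 4) (a 0) (a 3) z) (by unfold lf; ring) (hl 2 (by decide)))
      (lt_cg (x := lf (a 1) (a 2) (a 3) (a 0) (a 4) z) (by unfold lf; ring) (hl 3 (by decide)))
      (lt_cg (x := lf (a 0) (a 2) (a 4) (a 1) (a 3) z) (by unfold lf; ring) (hl 5 (by decide)))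
      (lt_cg (x := lf (a 0) (a 2) (a 3) (a 1) (a 4) z) (by unfold lf; ring) (hl 6 (by decide)))
      (lt_cg (x := lf (a 0) (a 1) (a 4) (a 2) (a 3) z) (by unfold lf; ring) (hl 7 (by decide)))
      (lt_cg (x := lf (a 0) (a 1) (a 3) (a 2) (a 4) z) (by unfold lf; ring) (hl 8 (by decide)))

end Pool.Agent.H433.GT
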