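import Pool.Agent.H433.GT.Glob
import Pool.Agent.H433.GT.Ht

/-!
The height of the sixteen products at the double of a point is large.
-/

set_option autoImplicit false
set_option linter.unusedSectionVars false

open NumberField IsDedekindDomain Finset

namespace Pool.Agent.H433.GT

open Pool.Agent.H433.AC

variable {K : Type} [Field K] [NumberField K]

theorem Nm_inf (x : 𝓞 K) : (Nm x : ℝ) = ∏ w : InfinitePlace K, w (x : K) ^ w.mult := by
  rw [InfinitePlace.prod_eq_abs_norm]
  unfold Nm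
  rw [Ideal.absNorm_span_singleton, ← Algebra.coe_norm_int, Nat.cast_natAbs]
  push_cast
  rfl

/-- the height of an integral vector -/
theorem ht_int {ι : Type} [Finite ι] {z : ι → 𝓞 K} {i : ι} (hi : z i ≠ 0) :
    Height.logHeight (fun i => (z i : K)) =
      Real.log (∏ w : InfinitePlace K, (⨆ i, w (z i : K)) ^ w.mult) -
        Real.log (Ideal.absNorm (Ideal.span (Set.range z))) := by
  have hne : (fun i => (z i : K)) ≠ 0 := by
    intro h0
    have := congrFun h0 i
    simp only [Pi.zero_apply] at this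
    exact hi (by exact_mod_cast this)
  have hz0 : z ≠ 0 := fun h0 => hi (congrFun h0 i)
  have h1 := NumberField.absNorm_mul_finprod_finitePlace_eq_one hz0
  have h2 : (Ideal.absNorm (Ideal.span (Set.range z)) : ℝ) ≠ 0 := by
    rw [Nat.cast_ne_zero, Ne, Ideal.absNorm_eq_zero_iff]
    exact span_ne hi
  have h3 : (∏ᶠ v : FinitePlace K, ⨆ i, v (z i : K)) =
      (Ideal.absNorm (Ideal.span (Set.range z)) : ℝ)⁻¹ := eq_inv_of_mul_eq_one_right h1
  have h4 : 0 < ∏ w : InfinitePlace K, (⨆ i, w (z i : K)) ^ w.mult := by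
    refine prod_pos fun w _ => pow_pos ?_ _
    refine lt_of_lt_of_le ?_ (le_ciSup (f := fun i => w (z i : K)) (Set.finite_range _).bddAbove i)
    exact InfinitePlace.pos_iff.2 (by exact_mod_cast hi)
  unfold Height.logHeight
  rw [NumberField.mulHeight_eq hne, h3, Real.log_mul h4.ne' (inv_ne_zero h2), Real.log_inv]
  ring

/-- a lower bound for the archimedean part -/
theorem arch_low {ι : Type} [Finite ι] {Z : ι → 𝓞 K} {x : 𝓞 K} (hx : x ≠ 0) {c : ℝ}
    (hc : 0 < c) (e : ℕ) (h : ∀ w : InfinitePlace K, ∃ j, c * w (x : K) ^ e ≤ w (Z j : K)) :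
    Module.finrank ℚ K * Real.log c + e * Real.log (Nm x) ≤
      Real.log (∏ w : InfinitePlace K, (⨆ i, w (Z i : K)) ^ w.mult) := by
  have hpos (w : InfinitePlace K) : 0 < w (x : K) := InfinitePlace.pos_iff.2 (by exact_mod_cast hx)
  have h1 : c ^ Module.finrank ℚ K * (Nm x : ℝ) ^ e ≤
      ∏ w : InfinitePlace K, (⨆ i, w (Z i : K)) ^ w.mult := by
    have h2 : c ^ Module.finrank ℚ K * (Nm x : ℝ) ^ e =
        ∏ w : InfinitePlace K, (c * w (x : K) ^ e) ^ w.mult := by
      rw [Nm_inf, ← prod_pow, ← NumberField.totalWeight_eq_finrank, NumberField.totalWeight_eq_sum_mult,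
        ← prod_pow_eq_pow_sum, ← prod_mul_distrib]
      refine prod_congr rfl fun w _ => ?_
      rw [mul_pow, ← pow_mul, ← pow_mul, mul_comm e]
    rw [h2]
    refine prod_le_prod (fun w _ => ?_) fun w _ => ?_
    · have := hpos w
      positivity
    · obtain ⟨j, hj⟩ := h w
      have := hpos w
      exact pow_le_pow_left₀ (by positivity)
        (hj.trans (le_ciSup (f := fun i => w (Z i : K)) (Set.finite_range _).bddAbove j)) _
  have hN : (0 : ℝ) < Nm x := by exact_mod_cast Nat.pos_of_ne_zero (Nm_ne hx)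
  have h3 := Real.log_le_log (by positivity) h1
  rw [Real.log_mul (by positivity) (by positivity), Real.log_pow, Real.log_pow] at h3
  exact h3

theorem exists_int (y : Fin 4 → K) : ∃ (c : K) (z : Fin 4 → 𝓞 K), c ≠ 0 ∧
    ∀ b, (z b : K) = c * y b := by
  obtain ⟨b, hb⟩ := IsLocalization.exist_integer_multiples_of_finite (nonZeroDivisors (𝓞 K)) y
  choose x0 hx0 using hb
  have hb0 : ((b : 𝓞 K) : K) ≠ 0 := by
    have := nonZeroDivisors.coe_ne_zero b
    exact_mod_cast this
  refine ⟨((b : 𝓞 K) : K), x0, hb0, fun i => ?_⟩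
  have h1 := hx0 i
  rw [Algebra.smul_def] at h1
  exact h1

theorem L_smul (a : Fin 5 → K) (s : Fin 10) (c : K) (y : Fin 4 → K) :
    L a s (fun b => c * y b) = c * L a s y := by
  unfold L lf
  ring

theorem u_smul (a : Fin 5 → K) (s : Fin 6) (c : K) (y : Fin 4 → K) :
    u a s (fun b => c * y b) = c * u a s y := by
  fin_cases s <;> simp [u] <;> ring

theorem al_smul (a : Fin 5 → K) (c : K) (y : Fin 4 → K) :
    al a (fun b => c * y b) = c ^ 2 • al a y := by
  funext j
  rcases j with j | j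
  · show W a j * L a j (fun b => c * y b) ^ 2 = c ^ 2 * (W a j * L a j y ^ 2)
    rw [L_smul]
    ring
  · show V a j * u a j (fun b => c * y b) ^ 2 = c ^ 2 * (V a j * u a j y ^ 2)
    rw [u_smul]
    ring

theorem al_co (a : Fin 5 → 𝓞 K) (z : Fin 4 → 𝓞 K) (j : Fin 10 ⊕ Fin 6) :
    ((al a z j : 𝓞 K) : K) = al (fun i => (a i : K)) (fun b => (z b : K)) j := by
  rcases j with j | j
  · simp [al, L, lf, W]
  · fin_cases j <;> simp [al, V, u]

/-- the height of the sixteen products at the double of a point -/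
theorem al_low_gen {a : Fin 5 → 𝓞 K} (h : Dif a) {y : Fin 4 → K} {t : K} {q : Fin 10 → K}
    (hL : ∀ s, L (fun i => (a i : K)) s y = t * q s ^ 2) {b : Fin 4} (hb : y b ≠ 0)
    (hb3 : b ≠ 3) {c : ℝ} (hc : 0 < c)
    (harch : ∀ z : Fin 4 → 𝓞 K, (∃ c : K, ∀ b, (z b : K) = c * y b) →
      ∀ w : InfinitePlace K, ∃ j, c * w (z b : K) ^ 2 ≤ w ((al a z j : 𝓞 K) : K))
    {S : Finset (HeightOneSpectrum (𝓞 K))} (hS : ∀ v ∈ S, Zero y v) :
    Module.finrank ℚ K * Real.log c + 2 * ∑ v ∈ S, Real.log (nv v) - ex h ≤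
      Height.logHeight (al (fun i => (a i : K)) y) := by
  obtain ⟨γ, z, hγ, hz⟩ := exists_int y
  have hzb : z b ≠ 0 := by
    intro h0
    have := hz b
    rw [h0] at this
    simp at this
    exact this.elim hγ hb
  have hzf : (fun b => (z b : K)) = fun b => γ * y b := funext hz
  have hSq (s : Fin 10) : Sq (γ * t) ((L a s z : 𝓞 K) : K) := by
    refine ⟨q s, ?_⟩
    rw [L_co, hzf, L_smul, hL]
    ring
  obtain ⟨⟨j, hj⟩, hJ⟩ := norm_al h hzb hSq
  have h1 : Height.logHeight (al (fun i => (a i : K)) y) =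
      Height.logHeight (fun j => ((al a z j : 𝓞 K) : K)) := by
    have h2 : (fun j => ((al a z j : 𝓞 K) : K)) = γ ^ 2 • al (fun i => (a i : K)) y := by
      rw [← al_smul, ← hzf]
      funext j
      exact al_co a z j
    rw [h2, Height.logHeight_smul_eq_logHeight _ (pow_ne_zero 2 hγ)]
  have h2 := arch_low hzb hc 2 (harch z ⟨γ, hz⟩)
  have h3 := norm_zero hγ hz hzb hb3 hS
  rw [h1, ht_int hj]
  push_cast at h2
  linarith

end Pool.Agent.H433.GT
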