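import Pool.Agent.H433.GT.Low

/-!
The theorem of Lang and Silverman for almost all curves of genus two with rational Weierstrass
points.
-/

set_option autoImplicit false
set_option linter.unusedSectionVars false
set_option linter.unusedSimpArgs false

open NumberField IsDedekindDomain Finset Filter Topology

namespace Pool.Agent.H433.GT

open Pool.Agent.H433.AC

variable {K : Type} [Field K] [NumberField K]

/-- the pairs without a given point -/
def G (i : Fin 6) : Finset (Fin 5 × Fin 5) := (prs 5).filter fun q => q.1.val ≠ i.val ∧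
  q.2.val ≠ i.val

theorem G_sub (i : Fin 6) : G i ⊆ prs 5 := filter_subset _ _

theorem V_eq {R : Type*} [CommRing R] (a : Fin 5 → R) (i : Fin 6) :
    V a i = ∏ q ∈ G i, (a q.1 - a q.2) := by
  have h0 : G 0 = {(1, 2), (1, 3), (1, 4), (2, 3), (2, 4), (3, 4)} := by decide
  have h1 : G 1 = {(0, 2), (0, 3), (0, 4), (2, 3), (2, 4), (3, 4)} := by decide
  have h2 : G 2 = {(0, 1), (0, 3), (0, 4), (1, 3), (1, 4), (3, 4)} := by decide
  have h3 : G 3 = {(0, 1), (0, 2), (0, 4), (1, 2), (1, 4), (2, 4)} := by decide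
  have h4 : G 4 = {(0, 1), (0, 2), (0, 3), (1, 2), (1, 3), (2, 3)} := by decide
  have h5 : G 5 = {(0, 1), (0, 2), (0, 3), (0, 4), (1, 2), (1, 3), (1, 4), (2, 3), (2, 4),
    (3, 4)} := by decide
  fin_cases i
  · rw [show (⟨0, by decide⟩ : Fin 6) = 0 from rfl, h0]
    repeat rw [prod_insert (by decide)]
    rw [prod_singleton]
    simp only [V, Fin.isValue, Matrix.cons_val_zero, Matrix.cons_val_one, Matrix.cons_val]
    ring
  · rw [show (⟨1, by decide⟩ : Fin 6) = 1 from rfl, h1]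
    repeat rw [prod_insert (by decide)]
    rw [prod_singleton]
    simp only [V, Fin.isValue, Matrix.cons_val_zero, Matrix.cons_val_one, Matrix.cons_val]
    ring
  · rw [show (⟨2, by decide⟩ : Fin 6) = 2 from rfl, h2]
    repeat rw [prod_insert (by decide)]
    rw [prod_singleton]
    simp only [V, Fin.isValue, Matrix.cons_val_zero, Matrix.cons_val_one, Matrix.cons_val]
    ring
  · rw [show (⟨3, by decide⟩ : Fin 6) = 3 from rfl, h3]
    repeat rw [prod_insert (by decide)]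
    rw [prod_singleton]
    simp only [V, Fin.isValue, Matrix.cons_val_zero, Matrix.cons_val_one, Matrix.cons_val]
    ring
  · rw [show (⟨4, by decide⟩ : Fin 6) = 4 from rfl, h4]
    repeat rw [prod_insert (by decide)]
    rw [prod_singleton]
    simp only [V, Fin.isValue, Matrix.cons_val_zero, Matrix.cons_val_one, Matrix.cons_val]
    ring
  · rw [show (⟨5, by decide⟩ : Fin 6) = 5 from rfl, h5]
    repeat rw [prod_insert (by decide)]
    rw [prod_singleton]
    simp only [V, Fin.isValue, Matrix.cons_val_zero, Matrix.cons_val_one, Matrix.cons_val]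
    ring

theorem prod_low {a : Fin 5 → 𝓞 K} {R : ℝ} (hR : 0 ≤ R) {w : InfinitePlace K}
    (h : ∀ q ∈ prs 5, R ≤ w ((a q.1 - a q.2 : 𝓞 K) : K)) {s : Finset (Fin 5 × Fin 5)}
    (hs : s ⊆ prs 5) : R ^ s.card ≤ w ((∏ q ∈ s, (a q.1 - a q.2) : 𝓞 K) : K) := by
  have h1 : ((∏ q ∈ s, (a q.1 - a q.2) : 𝓞 K) : K) = ∏ q ∈ s, ((a q.1 - a q.2 : 𝓞 K) : K) := by
    push_cast
    rfl
  rw [h1, map_prod, ← prod_const]
  exact prod_le_prod (fun _ _ => hR) fun q hq => h q (hs hq)

theorem prod_up {a : Fin 5 → 𝓞 K} {M : ℝ} {w : InfinitePlace K}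
    (h : ∀ q ∈ prs 5, w ((a q.1 - a q.2 : 𝓞 K) : K) ≤ M) {s : Finset (Fin 5 × Fin 5)}
    (hs : s ⊆ prs 5) : w ((∏ q ∈ s, (a q.1 - a q.2) : 𝓞 K) : K) ≤ M ^ s.card := by
  have h1 : ((∏ q ∈ s, (a q.1 - a q.2) : 𝓞 K) : K) = ∏ q ∈ s, ((a q.1 - a q.2 : 𝓞 K) : K) := by
    push_cast
    rfl
  rw [h1, map_prod, ← prod_const]
  exact prod_le_prod (fun _ _ => apply_nonneg _ _) fun q hq => h q (hs hq)

theorem card_F (s : Fin 10) : (F s).card = 4 := by
  revert s
  decide

/-- the height of the point of the moduli space, upper bound -/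
theorem hm_up {a : Fin 5 → 𝓞 K} (h : Dif a) {M : ℝ}
    (hw : ∀ w : InfinitePlace K, ∀ q ∈ prs 5, w ((a q.1 - a q.2 : 𝓞 K) : K) ≤ M) :
    hm a ≤ 4 * (Module.finrank ℚ K * Real.log M) := by
  have hW0 := Wne h 0
  have e1 : (W fun i => (a i : K)) = fun s => ((W a s : 𝓞 K) : K) := by
    funext s
    simp [W]
  unfold hm
  rw [e1, ht_int hW0]
  have h1 : (0 : ℝ) ≤ Real.log (Ideal.absNorm (Ideal.span (Set.range (W a)))) :=
    Real.log_natCast_nonneg _
  have h2 : ∏ w : InfinitePlace K, (⨆ i, w ((W a i : 𝓞 K) : K)) ^ w.mult ≤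
      (M ^ 4) ^ Module.finrank ℚ K := by
    rw [← NumberField.totalWeight_eq_finrank, NumberField.totalWeight_eq_sum_mult,
      ← prod_pow_eq_pow_sum]
    refine prod_le_prod (fun w _ => pow_nonneg (Real.iSup_nonneg fun i => apply_nonneg _ _) _)
      fun w _ => ?_
    refine pow_le_pow_left₀ (Real.iSup_nonneg fun i => apply_nonneg _ _) (ciSup_le fun s => ?_) _
    rw [W_eq, ← card_F s]
    exact prod_up (hw w) (F_sub s)
  have h3 : 0 < ∏ w : InfinitePlace K, (⨆ i, w ((W a i : 𝓞 K) : K)) ^ w.mult := by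
    refine prod_pos fun w _ => pow_pos ?_ _
    refine lt_of_lt_of_le ?_ (le_ciSup (f := fun i => w ((W a i : 𝓞 K) : K))
      (Set.finite_range _).bddAbove 0)
    exact InfinitePlace.pos_iff.2 (by exact_mod_cast hW0)
  have h4 := Real.log_le_log h3 h2
  rw [Real.log_pow, Real.log_pow] at h4
  push_cast at h4
  linarith

/-- the height of the point of the moduli space, lower bound -/
theorem hm_low {a : Fin 5 → 𝓞 K} (h : Dif a) {R : ℝ} (hR : 0 < R)
    (hw : ∀ w : InfinitePlace K, ∀ q ∈ prs 5, R ≤ w ((a q.1 - a q.2 : 𝓞 K) : K)) :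
    4 * (Module.finrank ℚ K * Real.log R) - ex h ≤ hm a := by
  have hW0 := Wne h 0
  have e1 : (W fun i => (a i : K)) = fun s => ((W a s : 𝓞 K) : K) := by
    funext s
    simp [W]
  unfold hm
  rw [e1, ht_int hW0]
  have h1 := norm_W h
  have h2 := arch_low (Z := W a) (x := (1 : 𝓞 K)) one_ne_zero (c := R ^ 4) (by positivity) 1
    fun w => ⟨0, by
      have := prod_low hR.le (hw w) (F_sub 0)
      rw [card_F, ← W_eq] at this
      simpa using this⟩
  have h3 : Real.log (Nm (1 : 𝓞 K)) = 0 := by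
    unfold Nm
    rw [Ideal.span_singleton_one, Ideal.absNorm_top]
    simp
  rw [h3, Real.log_pow] at h2
  push_cast at h2
  linarith

/-- the case `x 0 ≠ 0` -/
theorem arch0 {a : Fin 5 → 𝓞 K} {R : ℝ} (hR : 0 < R)
    (hw : ∀ w : InfinitePlace K, ∀ q ∈ prs 5, R ≤ w ((a q.1 - a q.2 : 𝓞 K) : K))
    (z : Fin 4 → 𝓞 K) (w : InfinitePlace K) :
    ∃ j, R ^ 10 * w (z 0 : K) ^ 2 ≤ w ((al a z j : 𝓞 K) : K) := by
  refine ⟨Sum.inr 5, ?_⟩
  have h1 : al a z (Sum.inr 5) = V a 5 * z 0 ^ 2 := rfl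
  have h2 := prod_low hR.le (hw w) (G_sub 5)
  rw [← V_eq, show (G 5).card = 10 by decide] at h2
  rw [h1]
  push_cast
  rw [map_mul, map_pow]
  exact mul_le_mul_of_nonneg_right h2 (by positivity)

/-- the case `x 0 = 0` -/
theorem arch1 {a : Fin 5 → 𝓞 K} {R : ℝ} (hR : 0 < R)
    (hw : ∀ w : InfinitePlace K, ∀ q ∈ prs 5, R ≤ w ((a q.1 - a q.2 : 𝓞 K) : K))
    (z : Fin 4 → 𝓞 K) (hz : z 0 = 0) (w : InfinitePlace K) :
    ∃ j, R ^ 8 / 4 * w (z 1 : K) ^ 2 ≤ w ((al a z j : 𝓞 K) : K) := by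
  have h0 : al a z (Sum.inr 0) = V a 0 * (-(a 0 * z 1) + z 2) ^ 2 := by
    show V a 0 * (a 0 ^ 2 * z 0 - a 0 * z 1 + z 2) ^ 2 = _
    rw [hz]
    ring
  have h1 : al a z (Sum.inr 1) = V a 1 * (-(a 1 * z 1) + z 2) ^ 2 := by
    show V a 1 * (a 1 ^ 2 * z 0 - a 1 * z 1 + z 2) ^ 2 = _
    rw [hz]
    ring
  set u₀ : 𝓞 K := -(a 0 * z 1) + z 2 with hu₀
  set u₁ : 𝓞 K := -(a 1 * z 1) + z 2 with hu₁
  have hv0 := prod_low hR.le (hw w) (G_sub 0)
  rw [← V_eq, show (G 0).card = 6 by decide] at hv0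
  have hv1 := prod_low hR.le (hw w) (G_sub 1)
  rw [← V_eq, show (G 1).card = 6 by decide] at hv1
  have h2 : R * w (z 1 : K) ≤ w (u₀ : K) + w (u₁ : K) := by
    have e1 : (u₁ : K) - (u₀ : K) = ((a 0 - a 1 : 𝓞 K) : K) * (z 1 : K) := by
      rw [hu₀, hu₁]
      push_cast
      ring
    have e2 : w ((u₁ : K) - (u₀ : K)) ≤ w (u₁ : K) + w (u₀ : K) := by
      rw [← InfinitePlace.norm_embedding_eq, ← InfinitePlace.norm_embedding_eq w (u₁ : K),
        ← InfinitePlace.norm_embedding_eq w (u₀ : K), map_sub]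
      exact norm_sub_le _ _
    rw [e1, map_mul] at e2
    have e3 := hw w (0, 1) (by decide)
    have e4 := mul_le_mul_of_nonneg_right e3 (apply_nonneg w (z 1 : K))
    linarith
  have hz1 : 0 ≤ w (z 1 : K) := apply_nonneg _ _
  rcases le_total (w (u₀ : K)) (w (u₁ : K)) with h3 | h3
  · refine ⟨Sum.inr 1, ?_⟩
    rw [h1]
    push_cast
    rw [map_mul, map_pow]
    have h4 : R * w (z 1 : K) / 2 ≤ w (u₁ : K) := by linarith
    have h5 : (R * w (z 1 : K) / 2) ^ 2 ≤ w (u₁ : K) ^ 2 :=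
      pow_le_pow_left₀ (by positivity) h4 2
    calc R ^ 8 / 4 * w (z 1 : K) ^ 2 = R ^ 6 * (R * w (z 1 : K) / 2) ^ 2 := by ring
      _ ≤ _ := mul_le_mul hv1 h5 (by positivity) (apply_nonneg _ _)
  · refine ⟨Sum.inr 0, ?_⟩
    rw [h0]
    push_cast
    rw [map_mul, map_pow]
    have h4 : R * w (z 1 : K) / 2 ≤ w (u₀ : K) := by linarith
    have h5 : (R * w (z 1 : K) / 2) ^ 2 ≤ w (u₀ : K) ^ 2 :=
      pow_le_pow_left₀ (by positivity) h4 2
    calc R ^ 8 / 4 * w (z 1 : K) ^ 2 = R ^ 6 * (R * w (z 1 : K) / 2) ^ 2 := by ring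
      _ ≤ _ := mul_le_mul hv0 h5 (by positivity) (apply_nonneg _ _)

theorem inj_of {a : Fin 5 → 𝓞 K} (h : Function.Injective a) :
    Function.Injective fun i => (a i : K) := fun i j hij => h (by
    have h1 : (a i : K) = (a j : K) := hij
    exact_mod_cast h1)

theorem good (K : Type) [Field K] [NumberField K] {ε ε₁ κ : ℝ} (hε₁ : 0 < ε₁) (hεε : ε₁ ≤ ε)
    (hε2 : ε₁ ≤ 1 / 100) (hκ : κ = ε₁ / 1000) : ∃ L₀ : ℝ, 0 ≤ L₀ ∧ ∀ H : ℕ, 1 ≤ H →
    L₀ ≤ Module.finrank ℚ K * Real.log H →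
    ∀ a : Fin 5 → 𝓞 K, (∀ l, a l ∈ box K H) →
      ¬ Exceptional ((H : ℝ) ^ κ) ((H : ℝ) ^ (1 - κ)) a → LangSilverman ε H a := by
  obtain ⟨C₀, hC₀, hsz⟩ := box_size K
  obtain ⟨C, hC, hsp⟩ := hhat_spec K
  set d := Module.finrank ℚ K with hd
  have hd1 : 1 ≤ d := Module.finrank_pos
  have hdR : (1 : ℝ) ≤ d := by exact_mod_cast hd1
  set D₁ : ℝ := 4 * (d * Real.log (2 * C₀)) with hD₁
  have hD₁0 : 0 ≤ D₁ := by
    have := Real.log_nonneg (show (1 : ℝ) ≤ 2 * C₀ by linarith)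
    positivity
  set D₂ : ℝ := 32 * Real.log (Nm (2 : 𝓞 K)) with hD₂
  have hD₂0 : 0 ≤ D₂ := by
    have := Real.log_natCast_nonneg (Nm (2 : 𝓞 K))
    positivity
  set D₃ : ℝ := d * Real.log 4 with hD₃
  have hD₃0 : 0 ≤ D₃ := by
    have := Real.log_nonneg (show (1 : ℝ) ≤ 4 by norm_num)
    positivity
  refine ⟨2 * (D₁ + D₂ + D₃ + C) / ε₁, by positivity, fun H hH hL a haB ha => ?_⟩
  have hHR : (1 : ℝ) ≤ H := by exact_mod_cast hH
  have hH0 : (0 : ℝ) < H := by linarith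
  set l := Real.log H with hl
  have hl0 : 0 ≤ l := Real.log_nonneg hHR
  set L := (d : ℝ) * l with hLd
  have hL0 : 0 ≤ L := by positivity
  have hlL : l ≤ L := le_mul_of_one_le_left hl0 hdR
  rw [div_le_iff₀ hε₁] at hL
  have hκ0 : 0 < κ := by
    rw [hκ]
    positivity
  have hκ1 : κ ≤ 1 / 1000 := by
    rw [hκ]
    linarith
  set Y : ℝ := (H : ℝ) ^ κ with hY
  set R : ℝ := (H : ℝ) ^ (1 - κ) with hR
  have hY1 : 1 ≤ Y := Real.one_le_rpow hHR hκ0.le
  have hR1 : 1 ≤ R := Real.one_le_rpow hHR (by linarith)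
  have hR0 : 0 < R := by linarith
  have hlY : Real.log Y = κ * l := by rw [hY, Real.log_rpow hH0]
  have hlR : Real.log R = (1 - κ) * l := by rw [hR, Real.log_rpow hH0]
  have hDif : Dif a := fun p hp => exceptional_ne hR0.le ha hp
  have hinj := hDif.inj
  have hwl (w : InfinitePlace K) (q : Fin 5 × Fin 5) (hq : q ∈ prs 5) :
      R ≤ w ((a q.1 - a q.2 : 𝓞 K) : K) := by
    by_contra hcon
    rw [not_le] at hcon
    refine ha (Or.inl ⟨q, hq, w.embedding, ?_⟩)
    rw [InfinitePlace.norm_embedding_eq]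
    exact hcon.le
  have hwu (w : InfinitePlace K) (q : Fin 5 × Fin 5) (hq : q ∈ prs 5) :
      w ((a q.1 - a q.2 : 𝓞 K) : K) ≤ 2 * C₀ * H := by
    rw [← InfinitePlace.norm_embedding_eq]
    have h1 := hsz H _ (haB q.1) w.embedding
    have h2 := hsz H _ (haB q.2) w.embedding
    push_cast
    rw [map_sub]
    refine (norm_sub_le _ _).trans ?_
    linarith
  have hex : ex hDif ≤ 390 * κ * L + D₂ := by
    have h1 := ex_le hY1 hR0.le ha hDif
    rw [hlY] at h1
    have h2 : κ * l ≤ κ * L := mul_le_mul_of_nonneg_left hlL hκ0.le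
    linarith
  have hup : hm a ≤ 4 * L + D₁ := by
    have h1 := hm_up hDif (M := 2 * C₀ * H) hwu
    rw [Real.log_mul (by positivity) (by positivity)] at h1
    have h2 : 4 * ((d : ℝ) * (Real.log (2 * C₀) + Real.log H)) = 4 * L + D₁ := by
      rw [hLd, hD₁]
      ring
    rw [h2] at h1
    exact h1
  have hdl : (d : ℝ) * Real.log R = L - κ * L := by
    rw [hlR, hLd]
    ring
  have hlow : 4 * L - 394 * (κ * L) - D₂ ≤ hm a := by
    have h1 := hm_low hDif hR0 hwl
    rw [hdl] at h1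
    linarith
  have hκL : κ * L = ε₁ * L / 1000 := by
    rw [hκ]
    ring
  have hεL : ε₁ * L ≤ ε * L := mul_le_mul_of_nonneg_right hεε hL0
  have hm0 : 0 ≤ hm a := Height.logHeight_nonneg _
  have hεL0 : 0 ≤ ε₁ * L := by positivity
  refine ⟨hinj, ?_, fun X hX => ?_⟩
  · rw [abs_le]
    constructor <;> linarith
  obtain ⟨hlim, hsp1⟩ := hsp _ (inj_of hinj) X hX
  refine ⟨hlim, ?_⟩
  by_cases hO : ∀ b, b ≠ 3 → X 1 b = 0
  · exact Or.inl hO
  refine Or.inr fun S hS => ?_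
  set T₁ := ∑ v ∈ S, Real.log (nv v) with hT
  have hT0 : 0 ≤ T₁ := sum_nonneg fun v _ => (log_nv_pos v).le
  obtain ⟨t, ht, hLt⟩ := hX.2 0
  have hmm : Height.logHeight (W fun i => (a i : K)) = hm a := rfl
  rw [hmm] at hsp1
  have hA0 : X 1 0 ≠ 0 → 3 / 4 * L + 1 / 4 * T₁ - 50 * (κ * L) - (D₁ + D₂ + D₃ + C) / 8 ≤
      hhat X := by
    intro h0
    have h1 := al_low_gen hDif hLt h0 (by decide) (c := R ^ 10) (by positivity)
      (fun z _ w => arch0 hR0 hwl z w) hS
    rw [Real.log_pow] at h1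
    have h2 : (d : ℝ) * (((10 : ℕ) : ℝ) * Real.log R) = 10 * (L - κ * L) := by
      rw [← hdl]
      push_cast
      ring
    rw [← hd, h2] at h1
    linarith
  have hA1 : 1 / 2 * L + 1 / 4 * T₁ - 50 * (κ * L) - (D₁ + D₂ + D₃ + C) / 8 ≤ hhat X := by
    by_cases h0 : X 1 0 = 0
    · have h1 : X 1 1 ≠ 0 := by
        intro h1
        apply hO
        have h2 : X 1 2 = 0 := by
          have h3 := (hX.1 1).2
          unfold Kummer at h3
          rw [h0, h1] at h3
          have h4 : X 1 2 ^ 4 = 0 := by linear_combination h3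
          exact pow_eq_zero_iff (by norm_num) |>.1 h4
        intro b hb
        fin_cases b
        · exact h0
        · exact h1
        · exact h2
        · exact absurd rfl hb
      have h2 := al_low_gen hDif hLt h1 (by decide) (c := R ^ 8 / 4) (by positivity)
        (fun z hz w => arch1 hR0 hwl z (by
          obtain ⟨c, hc⟩ := hz
          have := hc 0
          rw [h0, mul_zero] at this
          exact_mod_cast this) w) hS
      rw [Real.log_div (by positivity) (by norm_num), Real.log_pow] at h2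
      have h3 : (d : ℝ) * (((8 : ℕ) : ℝ) * Real.log R - Real.log 4) = 8 * (L - κ * L) - D₃ := by
        rw [← hdl, hD₃]
        push_cast
        ring
      rw [← hd, h3] at h2
      linarith
    · have := hA0 h0
      linarith
  constructor
  · have h1 : (1 / 8 - ε) * hm a ≤ (1 / 8 - ε₁) * hm a :=
      mul_le_mul_of_nonneg_right (by linarith) hm0
    have h2 : (1 / 8 - ε₁) * hm a ≤ (1 / 8 - ε₁) * (4 * L + D₁) :=
      mul_le_mul_of_nonneg_left hup (by linarith)
    have h3 : (1 / 8 - ε₁) * (4 * L + D₁) = 1 / 2 * L - 4 * (ε₁ * L) + 1 / 8 * D₁ - ε₁ * D₁ := by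
      ring
    have h4 : 0 ≤ ε₁ * D₁ := by positivity
    linarith
  · intro h0
    have h5 := hA0 h0
    have h1 : (3 / 16 - ε) * hm a ≤ (3 / 16 - ε₁) * hm a :=
      mul_le_mul_of_nonneg_right (by linarith) hm0
    have h2 : (3 / 16 - ε₁) * hm a ≤ (3 / 16 - ε₁) * (4 * L + D₁) :=
      mul_le_mul_of_nonneg_left hup (by linarith)
    have h3 : (3 / 16 - ε₁) * (4 * L + D₁) =
        3 / 4 * L - 4 * (ε₁ * L) + 3 / 16 * D₁ - ε₁ * D₁ := by
      ring
    have h4 : 0 ≤ ε₁ * D₁ := by positivity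
    linarith

open Classical in
/-- The inequality of Lang and Silverman for almost all curves of genus two with rational
Weierstrass points. -/
theorem main (K : Type) [Field K] [NumberField K] {ε : ℝ} (hε : 0 < ε) : ∃ C δ : ℝ, 0 < δ ∧
    ∀ H : ℕ, 1 ≤ H →
      (((Fintype.piFinset fun _ : Fin 5 => box K H).filter fun a =>
        ¬ LangSilverman ε H a).card : ℝ) ≤
          C * (H : ℝ) ^ (-δ) * ((Fintype.piFinset fun _ : Fin 5 => box K H).card : ℝ) := by
  set ε₁ : ℝ := min ε (1 / 100) with hε₁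
  set κ : ℝ := ε₁ / 1000 with hκ
  have hε₁0 : 0 < ε₁ := lt_min hε (by norm_num)
  have hε₁1 : ε₁ ≤ 1 / 100 := min_le_right _ _
  have hκ0 : 0 < κ := by positivity
  have hκ1 : κ ≤ 1 / 1000 := by
    rw [hκ]
    linarith
  obtain ⟨L₀, hL₀, hgood⟩ := good K (ε := ε) hε₁0 (min_le_left _ _) hε₁1 hκ
  obtain ⟨C₁, hC₁, hexc⟩ := exceptional_count K 5
  set d := Module.finrank ℚ K with hd
  have hd1 : 1 ≤ d := Module.finrank_pos
  have hdR : (1 : ℝ) ≤ d := by exact_mod_cast hd1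
  refine ⟨C₁ * 2 + Real.exp L₀, κ, by positivity, fun H hH => ?_⟩
  have hHR : (1 : ℝ) ≤ H := by exact_mod_cast hH
  have hH0 : (0 : ℝ) < H := by linarith
  have hcard : ((Fintype.piFinset fun _ : Fin 5 => box K H).card : ℝ) =
      ((2 * (H : ℝ) + 1) ^ d) ^ 5 := by
    rw [Fintype.card_piFinset]
    simp only [card_box, prod_const, card_univ, Fintype.card_fin]
    push_cast
    rfl
  rcases le_or_gt L₀ (d * Real.log H) with hL | hL
  · set Y : ℝ := (H : ℝ) ^ κ with hY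
    set R : ℝ := (H : ℝ) ^ (1 - κ) with hR
    have hY1 : 1 ≤ Y := Real.one_le_rpow hHR hκ0.le
    have hR1 : 1 ≤ R := Real.one_le_rpow hHR (by linarith)
    have h1 := hexc H hH Y R hY1 hR1
      ((Fintype.piFinset fun _ : Fin 5 => box K H).filter fun a => ¬ LangSilverman ε H a)
      fun a ha => by
        rw [mem_filter, Fintype.mem_piFinset] at ha
        refine ⟨ha.1, ?_⟩
        by_contra hcon
        exact ha.2 (hgood H hH hL a ha.1 hcon)
    refine h1.trans ?_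
    rw [hcard]
    set T : ℝ := (H : ℝ) ^ (-κ) with hT
    have hT0 : 0 < T := by positivity
    have t1 : R / H = T := by
      rw [hR, hT, ← Real.rpow_sub_one hH0.ne']
      congr 1
      ring
    have t2 : 1 / Y = T := by
      rw [hY, hT, Real.rpow_neg hH0.le, one_div]
    rw [t1, t2]
    have e1 : ((H : ℝ) ^ d) ^ 5 ≤ ((2 * (H : ℝ) + 1) ^ d) ^ 5 := by
      gcongr
      linarith
    have e2 := Real.exp_pos L₀
    have e3 : 0 ≤ C₁ := by linarith
    calc C₁ * ((H : ℝ) ^ d) ^ 5 * (T + T)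
        ≤ C₁ * ((2 * (H : ℝ) + 1) ^ d) ^ 5 * (T + T) := by
          gcongr
      _ = C₁ * 2 * T * ((2 * (H : ℝ) + 1) ^ d) ^ 5 := by ring
      _ ≤ (C₁ * 2 + Real.exp L₀) * T * ((2 * (H : ℝ) + 1) ^ d) ^ 5 := by
          gcongr
          linarith
  · have h1 : (((Fintype.piFinset fun _ : Fin 5 => box K H).filter fun a =>
        ¬ LangSilverman ε H a).card : ℝ) ≤ ((Fintype.piFinset fun _ : Fin 5 => box K H).card : ℝ) := by
      exact_mod_cast card_filter_le _ _
    refine h1.trans (le_mul_of_one_le_left (Nat.cast_nonneg _) ?_)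
    have hl0 : 0 ≤ Real.log H := Real.log_nonneg hHR
    have h2 : Real.log H ≤ L₀ := (le_mul_of_one_le_left hl0 hdR).trans hL.le
    have h3 : (H : ℝ) ^ κ ≤ Real.exp L₀ := by
      rw [Real.rpow_def_of_pos hH0]
      refine Real.exp_le_exp.2 ?_
      nlinarith
    have h4 : (H : ℝ) ^ κ ≤ C₁ * 2 + Real.exp L₀ := by
      have : 0 ≤ C₁ * 2 := by linarith
      linarith
    rw [Real.rpow_neg hH0.le, ← div_eq_mul_inv, le_div_iff₀ (by positivity), one_mul]
    exact h4

end Pool.Agent.H433.GT
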