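import Pool.Agent.H433.GT.Al

/-!
Translations.
-/

set_option autoImplicit false

namespace Pool.Agent.H433.GT

variable {R : Type*} [CommRing R]

/-- the action of a translation on the coordinates -/
def tau (s₁ s₂ c : R) (x : Fin 4 → R) : Fin 4 → R :=
  ![x 0, x 1 - 2 * c * x 0, x 2 - c * x 1 + c ^ 2 * x 0,
    x 3 - 2 * c * x 2 + c ^ 2 * x 1 + (2 * c ^ 2 * s₁ - 4 * c ^ 3 - c * s₂) * x 0]

theorem qf_shift (g₁ g₂ g₃ e₁ e₂ c : R) (x : Fin 4 → R) :
    qf (g₁ - 3 * c) (g₂ - 2 * c * g₁ + 3 * c ^ 2) (g₃ - c * g₂ + c ^ 2 * g₁ - c ^ 3) (e₁ - 2 * c)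
      (e₂ - c * e₁ + c ^ 2) (tau (g₁ + e₁) (g₂ + e₂ + g₁ * e₁) c x) = qf g₁ g₂ g₃ e₁ e₂ x := by
  simp only [qf, tau, Fin.isValue, Matrix.cons_val_zero, Matrix.cons_val_one, Matrix.cons_val]
  ring

theorem lf_shift (p q r l m c : R) (x : Fin 4 → R) :
    lf (p - c) (q - c) (r - c) (l - c) (m - c) (tau ((p + q + r) + (l + m))
      ((p * q + p * r + q * r) + l * m + (p + q + r) * (l + m)) c x) = lf p q r l m x := by
  simp only [lf, tau, Fin.isValue, Matrix.cons_val_zero, Matrix.cons_val_one, Matrix.cons_val]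
  ring

/-- the sum of the five numbers -/
def s1 (a : Fin 5 → R) : R := a 0 + a 1 + a 2 + a 3 + a 4

/-- the second elementary symmetric function of the five numbers -/
def s2 (a : Fin 5 → R) : R := a 0 * a 1 + a 0 * a 2 + a 0 * a 3 + a 0 * a 4 + a 1 * a 2 +
  a 1 * a 3 + a 1 * a 4 + a 2 * a 3 + a 2 * a 4 + a 3 * a 4

theorem s1_eq (a : Fin 5 → R) (s : Fin 10) : s1 a =
    (a (tr s).1 + a (tr s).2.1 + a (tr s).2.2) + (a (pr s).1 + a (pr s).2) := by
  fin_cases s <;> simp only [s1, tr, pr, Fin.zero_eta, Fin.mk_one, Fin.reduceFinMk,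
        Fin.isValue, Matrix.cons_val_zero, Matrix.cons_val_one, Matrix.cons_val] <;> ring

theorem s2_eq (a : Fin 5 → R) (s : Fin 10) : s2 a =
    (a (tr s).1 * a (tr s).2.1 + a (tr s).1 * a (tr s).2.2 + a (tr s).2.1 * a (tr s).2.2) +
      a (pr s).1 * a (pr s).2 +
      (a (tr s).1 + a (tr s).2.1 + a (tr s).2.2) * (a (pr s).1 + a (pr s).2) := by
  fin_cases s <;> simp only [s2, tr, pr, Fin.zero_eta, Fin.mk_one, Fin.reduceFinMk,
        Fin.isValue, Matrix.cons_val_zero, Matrix.cons_val_one, Matrix.cons_val] <;> ring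

theorem L_shift (a : Fin 5 → R) (s : Fin 10) (c : R) (x : Fin 4 → R) :
    L (fun i => a i - c) s (tau (s1 a) (s2 a) c x) = L a s x := by
  rw [s1_eq a s, s2_eq a s]
  unfold L
  exact lf_shift _ _ _ _ _ _ _

theorem Q_shift (a : Fin 5 → R) (s : Fin 10) (c : R) (x : Fin 4 → R) :
    Q (fun i => a i - c) s (tau (s1 a) (s2 a) c x) = Q a s x := by
  rw [s1_eq a s, s2_eq a s]
  unfold Q
  rw [← qf_shift _ _ _ _ _ c x]
  have h1 : a (tr s).1 - c + (a (tr s).2.1 - c) + (a (tr s).2.2 - c) =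
    a (tr s).1 + a (tr s).2.1 + a (tr s).2.2 - 3 * c := by ring
  have h2 : (a (tr s).1 - c) * (a (tr s).2.1 - c) + (a (tr s).1 - c) * (a (tr s).2.2 - c) +
      (a (tr s).2.1 - c) * (a (tr s).2.2 - c) =
      a (tr s).1 * a (tr s).2.1 + a (tr s).1 * a (tr s).2.2 + a (tr s).2.1 * a (tr s).2.2 -
        2 * c * (a (tr s).1 + a (tr s).2.1 + a (tr s).2.2) + 3 * c ^ 2 := by ring
  have h3 : (a (tr s).1 - c) * (a (tr s).2.1 - c) * (a (tr s).2.2 - c) =
      a (tr s).1 * a (tr s).2.1 * a (tr s).2.2 -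
        c * (a (tr s).1 * a (tr s).2.1 + a (tr s).1 * a (tr s).2.2 + a (tr s).2.1 * a (tr s).2.2) +
        c ^ 2 * (a (tr s).1 + a (tr s).2.1 + a (tr s).2.2) - c ^ 3 := by ring
  have h4 : a (pr s).1 - c + (a (pr s).2 - c) = a (pr s).1 + a (pr s).2 - 2 * c := by ring
  have h5 : (a (pr s).1 - c) * (a (pr s).2 - c) = a (pr s).1 * a (pr s).2 -
      c * (a (pr s).1 + a (pr s).2) + c ^ 2 := by ring
  rw [h1, h2, h3, h4, h5]

theorem W_shift (a : Fin 5 → R) (s : Fin 10) (c : R) :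
    W (fun i => a i - c) s = W a s := by
  unfold W
  ring

theorem V_shift (a : Fin 5 → R) (s : Fin 6) (c : R) :
    V (fun i => a i - c) s = V a s := by
  fin_cases s <;> simp only [V, Fin.zero_eta, Fin.mk_one, Fin.reduceFinMk,
        Fin.isValue, Matrix.cons_val_zero, Matrix.cons_val_one, Matrix.cons_val,
        sub_sub_sub_cancel_right]

theorem u_shift (a : Fin 5 → R) (s : Fin 6) (c : R) (x : Fin 4 → R) :
    u (fun i => a i - c) s (tau (s1 a) (s2 a) c x) = u a s x := by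
  fin_cases s <;> simp only [u, tau, Fin.zero_eta, Fin.mk_one, Fin.reduceFinMk,
        Fin.isValue, Matrix.cons_val_zero, Matrix.cons_val_one, Matrix.cons_val] <;> ring

/-- every vector is a translate of a vector whose last coordinate vanishes -/
theorem shift_eq (a : Fin 5 → R) : (fun i => a i - a 4) =
    ![a 0 - a 4, a 1 - a 4, a 2 - a 4, a 3 - a 4, 0] := by
  funext i
  fin_cases i <;> simp

end Pool.Agent.H433.GT
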